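import Mathlib
import Pool.Agent.R389.DedA

/-!
# The new part of a Heilbronn function is a Heilbronn function
-/

set_option autoImplicit false
set_option linter.unusedSectionVars false

namespace Pool.Agent.N28.DL

open Pool.Agent.H302R2 Pool.Agent.H302R3 Pool.Agent.H541R3.ART Pool.Agent.W446.AS Pool.Agent.R389

variable {G : Type} [Group G] [Finite G] {θ : G → ℂ}

/-- sums and multiplicities -/
lemma sm_pr (U : Subgroup G) (ψ : U →* ℂˣ) (f : G → ℂ) :
    sm U ψ f = (Nat.card U : ℂ) * pr (fun u : U => f u) (fun u => ((ψ u : ℂˣ) : ℂ)) := by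
  classical
  have : Fintype U := Fintype.ofFinite U
  rw [sm, finsum_eq_sum_of_fintype, pr_eq, ← mul_assoc, mul_inv_cancel₀ card_ne, one_mul]
  refine Finset.sum_congr rfl fun u _ => ?_
  rw [map_inv]

/-- the converse of `ha_of` -/
lemma heil_of (h : HA θ) : IsHeilbronn θ := by
  refine ⟨fun g x => h.conj g x, fun U ψ => ?_⟩
  obtain ⟨n, hn⟩ := h.nat U ψ
  refine ⟨n, ?_⟩
  rw [frob' U _ h.conj] at hn
  have := sm_pr U ψ θ
  rw [sm] at this
  rw [this, hn, mul_comm]

/-- **The new part.** -/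
theorem HA.cut (hA : HA θ) {s : ℕ} (hs : θ 1 = s) (K : Subgroup G) [K.Normal]
    (hm : ∀ B : Subgroup G, K ≤ B → Pool.Agent.W295.Cl.Mono s (B ⧸ (⊥ : Subgroup B))) :
    HA (θ - inv K θ) := by
  classical
  have hH := heil_of hA
  have hcl : ∀ g x : G, inv K θ (x * g * x⁻¹) = inv K θ g := fun g x => inv_class K hA.conj g x
  refine ⟨fun g x => ?_, fun U ψ => ?_⟩
  · rw [Pi.sub_apply, Pi.sub_apply, hA.conj, hcl]
  obtain ⟨n, hn⟩ := hA.nat U ψ
  have hU : (Nat.card U : ℂ) ≠ 0 := card_ne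
  have hsub : pr (θ - inv K θ) (ind U (fun h => ((ψ h : ℂˣ) : ℂ)))
      = n - pr (fun u : U => inv K θ u) (fun u => ((ψ u : ℂˣ) : ℂ)) := by
    rw [← hn, ← frob' U _ hcl, sub_eq_add_neg (θ : G → ℂ), pr_add, pr_neg, sub_eq_add_neg]
  rw [hsub]
  by_cases hψ : ∀ u : U, (u : G) ∈ K → ψ u = 1
  · obtain ⟨κ, hκ1, hκ2⟩ := extend_lin K ψ hψ
    have hκ : ∀ (x : (U ⊔ K : Subgroup G)) (hx : (x : G) ∈ K), κ x = (1 : K →* ℂˣ) ⟨x, hx⟩ :=
      fun x hx => hκ2 x hx
    have h1 := sm_part (θ := θ) K 1 U κ hκ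
    obtain ⟨a, ha⟩ := hH.mult (U ⊔ K) κ
    have h2 : κ.comp (Subgroup.inclusion le_sup_left) = ψ := by
      ext u
      rw [MonoidHom.comp_apply]
      exact congrArg Units.val (hκ1 u)
    have h3 : sm (U ⊔ K) κ θ = (a : ℂ) * Nat.card (U ⊔ K : Subgroup G) := ha
    rw [h2, part_one, h3, sm_pr] at h1
    have h4 : pr (fun u : U => inv K θ u) (fun u => ((ψ u : ℂˣ) : ℂ)) = a := by
      have h5 : (Nat.card (U ⊔ K : Subgroup G) : ℂ) ≠ 0 := card_ne
      apply mul_left_cancel₀ (mul_ne_zero h5 hU)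
      linear_combination -h1
    -- monotonicity
    have h6 : a ≤ n := by
      have hθB := hH.comp (U ⊔ K : Subgroup G).subtype
      refine Pool.Agent.W295.Cl.ded_top' hθB (le_refl s) (by simpa using hs) ⊥
        (fun n hn x => by
          rw [Subgroup.mem_bot] at hn
          rw [hn, one_mul]) (hm _ le_sup_right) (U.subgroupOf (U ⊔ K)) κ ha (b := n) ?_
      have hle : U ≤ U ⊔ K := le_sup_left
      let e := Subgroup.subgroupOfEquivOfLe hle
      rw [Nat.card_congr e.toEquiv]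
      have h7 : sm U ψ θ = (n : ℂ) * Nat.card U := by
        rw [sm_pr, ← frob' U _ hA.conj, hn, mul_comm]
      rw [← h7, sm]
      refine finsum_eq_of_bijective (fun g => e g) e.bijective fun g => ?_
      have h8 : κ (g : (U ⊔ K : Subgroup G)) = ψ (e g) := by
        rw [← hκ1]
        rfl
      rw [h8]
      rfl
    refine ⟨n - a, ?_⟩
    rw [h4, Nat.cast_sub h6]
  · push Not at hψ
    obtain ⟨u, hu, hne⟩ := hψ
    have h1 : sm U ψ (part K 1 θ) = 0 := sm_zero_of 1 ψ (x₀ := u) hu (by simpa using hne)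
    rw [part_one, sm_pr] at h1
    rcases mul_eq_zero.mp h1 with h | h
    · exact absurd h hU
    · exact ⟨n, by rw [h, sub_zero]⟩

/-- the new part for solvable groups -/
theorem HA.cut_solvable (hG : Group.IsSolvable G) (hA : HA θ) {s : ℕ} (hs : θ 1 = s)
    (K : Subgroup G) [K.Normal] : HA (θ - inv K θ) := by
  refine HA.cut hA hs K fun B _ => ?_
  have h1 : Group.IsSolvable B := inferInstance
  have h2 : Group.IsSolvable (B ⧸ (⊥ : Subgroup B)) := inferInstance
  exact Pool.Agent.TH820.builtSC_mono (Pool.Agent.TH820.builtSC_solvable h2)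

end Pool.Agent.N28.DL
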