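import Mathlib
import Pool.Agent.R389.Simple
import Pool.Agent.W446.AS.FCrit

/-!
# Characters are monomial or generated by good monomial characters

A relative form of Brauer's induction theorem for a Heilbronn function on a solvable group.
-/

set_option autoImplicit false
set_option linter.unusedSectionVars false

namespace Pool.Agent.N28.DL

open Pool.Agent.H302R2 Pool.Agent.H302R3 Pool.Agent.H541R3.ART Pool.Agent.W446.AS Pool.Agent.R389

/-- The condition on the sections: for every section `X` of `G` with cyclic centre in which all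
abelian normal subgroups are central and in which the image of `N` is not abelian there is a normal
subgroup `E` which contains the centre properly, is contained in the product of the centre and the
image of `N`, has an abelian image modulo the centre, of order `D ^ 2` with `r < D`. -/
def Sec (r : ℕ) {G : Type} [Group G] (N : Subgroup G) : Prop :=
  ∀ (H : Subgroup G) (X : Type) [Group X] (q : H →* X), Function.Surjective q →
    IsCyclic (Subgroup.center X) →
    (∀ A : Subgroup X, A.Normal → (∀ a ∈ A, ∀ b ∈ A, a * b = b * a) → A ≤ Subgroup.center X) →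
    (∃ a ∈ (N.subgroupOf H).map q, ∃ b ∈ (N.subgroupOf H).map q, a * b ≠ b * a) →
    ∃ E : Subgroup X, E.Normal ∧ Subgroup.center X ≤ E ∧
      E ≤ (N.subgroupOf H).map q ⊔ Subgroup.center X ∧
      (∀ x ∈ E, ∀ y ∈ E, x * y * x⁻¹ * y⁻¹ ∈ Subgroup.center X) ∧ E ≠ Subgroup.center X ∧
      ∀ D : ℕ, Nat.card E = D ^ 2 * Nat.card (Subgroup.center X) → r < D

/-- there is a chain of normal subgroups from `N` to `G` with cyclic quotients -/
def SSo {G : Type} [Group G] (N : Subgroup G) : Prop :=
  ∃ (l : ℕ) (C : ℕ → Subgroup G), C 0 = N ∧ C l = ⊤ ∧ (∀ i, (C i).Normal) ∧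
    ∀ i < l, ∃ x ∈ C (i + 1), C (i + 1) = C i ⊔ Subgroup.zpowers x

lemma Sec.sub {r : ℕ} {G : Type} [Group G] {N : Subgroup G} (h : Sec r N) (K : Subgroup G) :
    Sec r (N.subgroupOf K) := by
  intro H X _ q hq hcyc hab hne
  let e : H.map K.subtype ≃* H := (H.equivMapOfInjective K.subtype K.subtype_injective).symm
  have he : ∀ x : H, e ⟨((x : K) : G), ⟨x, x.2, rfl⟩⟩ = x := by
    intro x
    rw [MulEquiv.symm_apply_eq]
    rfl
  have hm : (N.subgroupOf (H.map K.subtype)).map (q.comp e.toMonoidHom)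
      = ((N.subgroupOf K).subgroupOf H).map q := by
    ext x
    constructor
    · rintro ⟨⟨_, k, hk, rfl⟩, hy, rfl⟩
      refine ⟨⟨k, hk⟩, hy, ?_⟩
      change q _ = q (e _)
      congr 1
      exact (he ⟨k, hk⟩).symm
    · rintro ⟨y, hy, rfl⟩
      refine ⟨⟨((y : K) : G), ⟨y, y.2, rfl⟩⟩, hy, ?_⟩
      change q (e _) = q y
      rw [he]
  have h1 := h (H.map K.subtype) X (q.comp e.toMonoidHom) (hq.comp e.surjective) hcyc hab
    (by rw [hm]; exact hne)
  rw [hm] at h1
  exact h1

lemma SSo.sub {G : Type} [Group G] [Finite G] {N : Subgroup G} (h : SSo N) (K : Subgroup G) :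
    SSo (N.subgroupOf K) := by
  classical
  obtain ⟨l, C, h0, hl, hn, hc⟩ := h
  refine ⟨l, fun i => (C i).subgroupOf K, by
      change (C 0).subgroupOf K = _
      rw [h0], by
      change (C l).subgroupOf K = _
      rw [hl]
      ext x
      simp,
    fun i => (hn i).subgroupOf K, fun i hi => ?_⟩
  obtain ⟨x, hx, hC⟩ := hc i hi
  have hni := hn i
  have hle : C i ≤ C (i + 1) := by rw [hC]; exact le_sup_left
  -- the quotient is cyclic
  let π : K →* G ⧸ C i := (QuotientGroup.mk' (C i)).comp K.subtype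
  let Q : Subgroup (G ⧸ C i) := ((C (i + 1)).subgroupOf K).map π
  have hQ : Q ≤ Subgroup.zpowers (QuotientGroup.mk' (C i) x) := by
    rintro _ ⟨y, hy, rfl⟩
    have hy' : (y : G) ∈ C (i + 1) := hy
    rw [hC] at hy'
    obtain ⟨c, hcc, z, hz, hcz⟩ := Subgroup.mem_sup_of_normal_left.mp hy'
    obtain ⟨k, rfl⟩ := hz
    refine ⟨k, ?_⟩
    change (QuotientGroup.mk' (C i) x) ^ k = QuotientGroup.mk' (C i) (y : G)
    rw [← hcz, map_mul, map_zpow]
    have : QuotientGroup.mk' (C i) c = 1 := (QuotientGroup.eq_one_iff c).mpr hcc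
    rw [this, one_mul]
  have hcycZ : IsCyclic (Subgroup.zpowers (QuotientGroup.mk' (C i) x)) := inferInstance
  have hcyc : IsCyclic Q := by
    have : IsCyclic (Q.subgroupOf (Subgroup.zpowers (QuotientGroup.mk' (C i) x))) := inferInstance
    exact isCyclic_of_surjective (Subgroup.subgroupOfEquivOfLe hQ)
      (Subgroup.subgroupOfEquivOfLe hQ).surjective
  obtain ⟨⟨_, y, hy, rfl⟩, hgen⟩ := hcyc.exists_generator
  refine ⟨y, hy, le_antisymm ?_ ?_⟩
  · intro z hz
    obtain ⟨k, hk⟩ := Subgroup.mem_zpowers_iff.mp (hgen ⟨π z, z, hz, rfl⟩)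
    have h1 : π y ^ k = π z := by
      have := congrArg Subtype.val hk
      simpa using this
    have h2 : z * (y ^ k)⁻¹ ∈ (C i).subgroupOf K := by
      rw [Subgroup.mem_subgroupOf]
      have h3 : QuotientGroup.mk' (C i) ((z * (y ^ k)⁻¹ : K) : G) = 1 := by
        change π (z * (y ^ k)⁻¹) = 1
        rw [map_mul, map_inv, map_zpow, h1, mul_inv_cancel]
      exact (QuotientGroup.eq_one_iff _).mp h3
    have h4 : z = (z * (y ^ k)⁻¹) * y ^ k := by group
    rw [h4]
    exact Subgroup.mul_mem_sup h2 ⟨k, rfl⟩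
  · refine sup_le ?_ ?_
    · intro z hz
      exact hle hz
    · rw [Subgroup.zpowers_le]
      exact hy

/-- pulling back irreducible characters -/
lemma irr_comp {G Y : Type} [Group G] [Finite G] [Group Y] [Finite Y] {f : G →* Y}
    (hf : Function.Surjective f) {η : Y → ℂ} (hη : η ∈ Irr Y) : (fun g => η (f g)) ∈ Irr G := by
  obtain ⟨n, ρ, hρ, rfl⟩ := exists_rep hη
  have h1 : Irred (ρ.comp f : Representation ℂ G (Fin n → ℂ)) := by
    refine ⟨hρ.1, fun W hW => hρ.2 W fun y v hv => ?_⟩
    obtain ⟨g, rfl⟩ := hf y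
    exact hW g v hv
  exact irr_of_irred h1

/-- a function which is invariant under an element on which `μ` is nontrivial -/
lemma part_inv_zero {G : Type} [Group G] [Finite G] {W : Subgroup G} {μ : W →* ℂˣ} {f : G → ℂ}
    {k : W} (hk : μ k ≠ 1) (hf : ∀ g, f (g * k) = f g) : part W μ f = 0 := by
  classical
  have : Fintype W := Fintype.ofFinite W
  funext g
  have h1 : part W μ f g = ((μ k : ℂˣ) : ℂ) * part W μ f g := by
    rw [part_eq, mul_left_comm]
    congr 1
    rw [Finset.mul_sum]
    let F : W → ℂ := fun n => f (g * n) * (((μ n)⁻¹ : ℂˣ) : ℂ)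
    change ∑ n : W, F n = _
    rw [← Equiv.sum_comp (Equiv.mulRight k⁻¹) F]
    refine Finset.sum_congr rfl fun n _ => ?_
    change f (g * ((n * k⁻¹ : W) : G)) * (((μ (n * k⁻¹))⁻¹ : ℂˣ) : ℂ) = _
    have h2 : f (g * ((n * k⁻¹ : W) : G)) = f (g * n) := by
      rw [← hf (g * ((n * k⁻¹ : W) : G))]
      congr 1
      rw [Subgroup.coe_mul, Subgroup.coe_inv]
      group
    rw [h2, map_mul, map_inv, mul_inv, inv_inv, Units.val_mul]
    ring
  have h2 : (1 - ((μ k : ℂˣ) : ℂ)) * part W μ f g = 0 := by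
    rw [sub_mul, one_mul, ← h1, sub_self]
  rcases mul_eq_zero.mp h2 with h3 | h3
  · exfalso
    apply hk
    apply Units.ext
    rw [Units.val_one]
    exact (sub_eq_zero.mp h3).symm
  · exact h3

/-- the image of a chain with cyclic quotients in a group whose abelian normal subgroups are
central -/
lemma SSo.abelian {G X : Type} [Group G] [Group X] {N : Subgroup G} (h : SSo N) (π : G →* X)
    (hπ : Function.Surjective π)
    (hab : ∀ A : Subgroup X, A.Normal → (∀ a ∈ A, ∀ b ∈ A, a * b = b * a) →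
      A ≤ Subgroup.center X)
    (hN : ∀ a ∈ N.map π, ∀ b ∈ N.map π, a * b = b * a) : ∀ a b : X, a * b = b * a := by
  obtain ⟨l, C, h0, hl, hn, hc⟩ := h
  have key : ∀ i ≤ l, (C i).map π ≤ Subgroup.center X := by
    intro i
    induction i with
    | zero =>
      intro _
      refine hab _ ((hn 0).map π hπ) ?_
      rw [h0]
      exact hN
    | succ i ih =>
      intro hi
      obtain ⟨x, hx, hC⟩ := hc i hi
      have hni := hn i
      have h1 := ih (by omega)
      refine hab _ ((hn (i + 1)).map π hπ) ?_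
      have h2 : ∀ a ∈ (C (i + 1)).map π, ∃ z ∈ Subgroup.center X, ∃ k : ℤ, a = z * π x ^ k := by
        rintro _ ⟨y, hy, rfl⟩
        have hy' : y ∈ C (i + 1) := hy
        rw [hC] at hy'
        obtain ⟨c, hcc, z, hz, rfl⟩ := Subgroup.mem_sup_of_normal_left.mp hy'
        obtain ⟨k, rfl⟩ := hz
        exact ⟨π c, h1 ⟨c, hcc, rfl⟩, k, by rw [map_mul, map_zpow]⟩
      intro a ha b hb
      obtain ⟨z, hz, k, rfl⟩ := h2 a ha
      obtain ⟨z', hz', k', rfl⟩ := h2 b hb
      have e1 := Subgroup.mem_center_iff.mp hz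
      have e2 := Subgroup.mem_center_iff.mp hz'
      calc z * π x ^ k * (z' * π x ^ k') = z * (π x ^ k * z') * π x ^ k' := by group
        _ = z * (z' * π x ^ k) * π x ^ k' := by rw [e2]
        _ = z * z' * (π x ^ k * π x ^ k') := by group
        _ = z * z' * (π x ^ k' * π x ^ k) := by rw [← zpow_add, ← zpow_add, add_comm]
        _ = z' * z * (π x ^ k' * π x ^ k) := by rw [e2 z]
        _ = z' * (z * π x ^ k') * π x ^ k := by group
        _ = z' * (π x ^ k' * z) * π x ^ k := by rw [e1]
        _ = _ := by group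
  intro a b
  have h1 := key l le_rfl
  rw [hl, Subgroup.map_top_of_surjective π hπ] at h1
  exact (Subgroup.mem_center_iff.mp (h1 (Subgroup.mem_top b)) a)

end Pool.Agent.N28.DL
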