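import Mathlib
import Pool.Agent.N28.DL.Gt
import Pool.Agent.N28.DL.Cut

/-!
# Characters are monomial or generated by good monomial characters

The general form.
-/

set_option autoImplicit false
set_option linter.unusedSectionVars false

namespace Pool.Agent.N28.DL

open Pool.Agent.H302R2 Pool.Agent.H302R3 Pool.Agent.H541R3.ART Pool.Agent.W446.AS Pool.Agent.R389
  Pool.Agent.H302R5 Pool.Agent.H302R6

/-- Every Heilbronn function on `X` of degree at most `s` is constant on the cosets of `Y`. -/
def Rig (s : ℕ) (X : Type) [Group X] (Y : Subgroup X) : Prop :=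
  ∀ η : X → ℂ, HA η → ∀ s' : ℕ, s' ≤ s → η 1 = s' → ∀ x, ∀ y ∈ Y, η (x * y) = η x

lemma Rig.mono {s t : ℕ} (hst : s ≤ t) {X : Type} [Group X] {Y : Subgroup X} (h : Rig t X Y) :
    Rig s X Y := fun η hη s' hs' => h η hη s' (hs'.trans hst)

/-- The condition on the sections `X` of `G` with cyclic centre in which all abelian normal
subgroups are central and in which the image of `N` is not abelian: there is a nontrivial normal
subgroup `Y` contained in the image of some `K i` such that the Heilbronn functions of degree at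
most `s i` are constant on the cosets of `Y`. -/
def SecG {ι : Type} (s : ι → ℕ) {G : Type} [Group G] (K : ι → Subgroup G) (N : Subgroup G) :
    Prop :=
  ∀ (H : Subgroup G) (X : Type) [Group X] [Finite X] (q : H →* X), Function.Surjective q →
    IsCyclic (Subgroup.center X) →
    (∀ A : Subgroup X, A.Normal → (∀ a ∈ A, ∀ b ∈ A, a * b = b * a) → A ≤ Subgroup.center X) →
    (∃ a ∈ (N.subgroupOf H).map q, ∃ b ∈ (N.subgroupOf H).map q, a * b ≠ b * a) →
    ∃ (i : ι) (Y : Subgroup X), Y.Normal ∧ Y ≠ ⊥ ∧ Y ≤ ((K i).subgroupOf H).map q ∧ Rig (s i) X Y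

lemma SecG.sub {ι : Type} {s : ι → ℕ} {G : Type} [Group G] {K : ι → Subgroup G} {N : Subgroup G}
    (h : SecG s K N) (U : Subgroup G) : SecG s (fun i => (K i).subgroupOf U) (N.subgroupOf U) := by
  intro H X _ _ q hq hcyc hab hne
  let e : H.map U.subtype ≃* H := (H.equivMapOfInjective U.subtype U.subtype_injective).symm
  have he : ∀ x : H, e ⟨((x : U) : G), ⟨x, x.2, rfl⟩⟩ = x := by
    intro x
    rw [MulEquiv.symm_apply_eq]
    rfl
  have hm : ∀ N : Subgroup G, (N.subgroupOf (H.map U.subtype)).map (q.comp e.toMonoidHom)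
      = ((N.subgroupOf U).subgroupOf H).map q := by
    intro N
    ext x
    constructor
    · rintro ⟨⟨_, k, hk, rfl⟩, hy, rfl⟩
      refine ⟨⟨k, hk⟩, hy, ?_⟩
      change q _ = q (e _)
      congr 1
      exact (he ⟨k, hk⟩).symm
    · rintro ⟨y, hy, rfl⟩
      refine ⟨⟨((y : U) : G), ⟨y, y.2, rfl⟩⟩, hy, ?_⟩
      change q (e _) = q y
      rw [he]
  obtain ⟨i, Y, h1, h2, h3, h4⟩ := h (H.map U.subtype) X (q.comp e.toMonoidHom)
    (hq.comp e.surjective) hcyc hab (by rw [hm]; exact hne)
  rw [hm] at h3
  exact ⟨i, Y, h1, h2, h3, h4⟩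

variable {G : Type} [Group G] [Finite G] {θ : G → ℂ}

/-- characters which are nontrivial on a rigid normal subgroup of the quotient -/
theorem rig_good {X : Type} [Group X] [Finite X] {π : G →* X} (hπ : Function.Surjective π)
    {η : X → ℂ} (hη : η ∈ Irr X) {Y : Subgroup X} (hYn : Y.Normal) (hYη : ∃ y ∈ Y, η y ≠ η 1)
    {K : Subgroup G} (hYK : Y ≤ K.map π) {s : ℕ} (hR : Rig s X Y) (hA : HA θ) {θ₀ θ₁ : G → ℂ}
    (hsum : θ = θ₀ + θ₁) (hA1 : HA θ₁) (h0 : ∀ g, ∀ k ∈ K, θ₀ (g * k) = θ₀ g) {s' : ℕ}
    (hs : s' ≤ s) (hs1 : θ₁ 1 = s') : (fun g => η (π g)) ∈ GoodA θ := by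
  classical
  have : Fintype G := Fintype.ofFinite G
  have : Fintype X := Fintype.ofFinite X
  have : Fintype π.ker := Fintype.ofFinite _
  -- the push forward is invariant under `Y`
  have hH1 := push_isHeilbronn hπ (heil_of hA1)
  obtain ⟨r', hr', hr1⟩ := push_one_nat_le hπ (heil_of hA1) hs1
  have e1 := hR _ (ha_of hH1) r' (hr'.trans hs) hr1
  have e0 : ∀ x, ∀ y ∈ Y, push π θ₀ (x * y) = push π θ₀ x := by
    intro x y hy
    obtain ⟨g, rfl⟩ := hπ x
    obtain ⟨k, hk, rfl⟩ := hYK hy
    rw [← map_mul, push_apply, push_apply]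
    congr 1
    rw [← Equiv.sum_comp (MulAut.conjNormal k).toEquiv (fun n : π.ker => θ₀ (g * n))]
    refine Finset.sum_congr rfl fun n _ => ?_
    change _ = θ₀ (g * ((MulAut.conjNormal k n : π.ker) : G))
    rw [MulAut.conjNormal_apply, ← h0 (g * (k * n * k⁻¹)) k hk]
    congr 1
    group
  have e2 : ∀ x, ∀ y ∈ Y, push π θ (x * y) = push π θ x := by
    intro x y hy
    have h1 : ∀ z, push π θ z = push π θ₀ z + push π θ₁ z := by
      intro z
      obtain ⟨g, rfl⟩ := hπ z
      rw [push_apply, push_apply, push_apply, ← mul_add, ← Finset.sum_add_distrib, hsum]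
      rfl
    rw [h1, h1, e0 x y hy, e1 x y hy]
  have hHp := push_isHeilbronn hπ (heil_of hA)
  have hinvp : part Y 1 (push π θ) = push π θ := by
    rw [part_one]
    exact inv_of_const Y e2
  -- the relative Brauer theorem
  have h1 : η ∈ NewA Y := by
    refine relative_brauer Y (AddSubgroup.subset_closure hη) ?_
    rcases irr_inv Y hη with h | h
    · exfalso
      obtain ⟨y, hy, hne⟩ := hYη
      apply hne
      have := h 1 y hy
      rwa [one_mul] at this
    · exact h.2
  let m : (X → ℂ) →+ (G → ℂ) := AddMonoidHom.mk' (fun u g => u (π g)) (fun a b => rfl)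
  have h2 : NewA Y ≤ (GoodA θ).comap m := by
    rw [NewA, AddSubgroup.closure_le]
    rintro f ⟨V, ψ, -, ⟨v, hv, hne⟩, rfl⟩
    rw [SetLike.mem_coe, AddSubgroup.mem_comap]
    change (fun g => ind V _ (π g)) ∈ GoodA θ
    refine AddSubgroup.subset_closure ⟨V.comap π, ψ.comp
      { toFun := fun h : V.comap π => ⟨π h, h.2⟩
        map_one' := by apply Subtype.ext; simp
        map_mul' := by intro a b; apply Subtype.ext; simp }, ind_comap hπ V _, ?_⟩
    rw [← pr_push hπ, frob' V _ hHp.conj]
    have h3 : sm V ψ (part Y 1 (push π θ)) = 0 := sm_zero_of 1 ψ (x₀ := v) hv (by simpa using hne)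
    rw [hinvp, sm_pr] at h3
    exact (mul_eq_zero.mp h3).resolve_left card_ne
  exact h2 h1

/-- **Main group theoretic theorem.** -/
theorem gtG {ι : Type} (s : ι → ℕ) : ∀ (n : ℕ) (G : Type) [Group G] [Finite G], Nat.card G = n →
    ∀ (N : Subgroup G) (K : ι → Subgroup G), SSo N → SecG s K N → ∀ θ : G → ℂ, HA θ →
    (∀ i, ∃ θ₀ θ₁ : G → ℂ, θ = θ₀ + θ₁ ∧ HA θ₁ ∧ (∀ g, ∀ k ∈ K i, θ₀ (g * k) = θ₀ g) ∧
      ∃ s' : ℕ, s' ≤ s i ∧ θ₁ 1 = s') →
    ∀ χ ∈ Irr G, R389.Mono χ ∨ χ ∈ GoodA θ := by
  intro n
  induction n using Nat.strong_induction_on with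
  | _ n ih =>
    intro G _ _ hn N K hSS hSec θ hA hdec χ hχ
    classical
    obtain ⟨m, ρ, hρ, rfl⟩ := exists_rep hχ
    let π : G →* G ⧸ ρ.ker := QuotientGroup.mk' _
    have hπ : Function.Surjective π := QuotientGroup.mk'_surjective _
    let σ : Representation ℂ (G ⧸ ρ.ker) (Fin m → ℂ) := QuotientGroup.lift ρ.ker ρ (fun g hg => hg)
    have hσρ : ∀ g, σ (π g) = ρ g := fun g => rfl
    have hf : ∀ x, σ x = 1 → x = 1 := by
      intro x hx
      obtain ⟨g, rfl⟩ := hπ x
      exact (QuotientGroup.eq_one_iff g).mpr hx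
    have hσ : Irred σ := ⟨hρ.1, fun W hW => hρ.2 W fun g v hv => by
      rw [← hσρ]; exact hW (π g) v hv⟩
    have hψ := irr_of_irred hσ
    have hχψ : ρ.character = fun g => σ.character (π g) := rfl
    by_cases hab : ∀ A : Subgroup (G ⧸ ρ.ker), A.Normal → (∀ a ∈ A, ∀ b ∈ A, a * b = b * a) →
      A ≤ Subgroup.center (G ⧸ ρ.ker)
    swap
    · -- induced from a proper subgroup
      push Not at hab
      obtain ⟨A, hAn, hA1', hA2⟩ := hab
      obtain ⟨H, hH, φ, hφ, hφ1⟩ := clifford_char hσ hf A (fun a b => Subtype.ext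
        (hA1' a a.2 b b.2)) hA2
      let H' : Subgroup G := H.comap π
      let π' : H' →* H :=
        { toFun := fun h => ⟨π h, h.2⟩
          map_one' := by apply Subtype.ext; simp
          map_mul' := by intro a b; apply Subtype.ext; simp }
      have hπ' : Function.Surjective π' := by
        rintro ⟨y, hy⟩
        obtain ⟨g, rfl⟩ := hπ y
        exact ⟨⟨g, hy⟩, rfl⟩
      have hχ1 : ρ.character = ind H' (fun h => φ (π' h)) := by
        rw [hχψ, hφ1]
        exact ind_comap hπ H φ
      have hlt : Nat.card H' < n := by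
        rw [← hn]
        rcases lt_or_eq_of_le (Nat.le_of_dvd Nat.card_pos H'.card_subgroup_dvd_card) with h | h
        · exact h
        · exfalso
          apply hH
          have h1 := Subgroup.eq_top_of_card_eq H' h
          rw [eq_top_iff]
          intro y _
          obtain ⟨g, rfl⟩ := hπ y
          have : g ∈ H' := by rw [h1]; exact Subgroup.mem_top g
          exact this
      rcases ih _ hlt H' rfl (N.subgroupOf H') (fun i => (K i).subgroupOf H') (hSS.sub H')
        (hSec.sub H') (fun x => θ x) (hA.res H') (fun i => by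
          obtain ⟨θ₀, θ₁, h1, h2, h3, s', h4, h5⟩ := hdec i
          exact ⟨fun x => θ₀ x, fun x => θ₁ x, by rw [h1]; rfl, h2.res H',
            fun g k hk => h3 g k hk, s', h4, h5⟩) _ (irr_comp hπ' hφ) with h | h
      · left
        rw [hχ1]
        exact h.ind
      · right
        rw [hχ1]
        exact goodA_ind hA.conj H' h
    · by_cases hX : ∀ a b : G ⧸ ρ.ker, a * b = b * a
      · left
        rw [hχψ]
        exact (mono_abelian hX hψ).comp hπ
      · by_cases hY : ∀ a ∈ N.map π, ∀ b ∈ N.map π, a * b = b * a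
        · exact absurd (hSS.abelian π hπ hab hY) hX
        · right
          push Not at hY
          obtain ⟨ω, hω⟩ := hσ.central
          have hωi : Function.Injective ω := by
            rw [injective_iff_map_eq_one]
            intro z hz
            apply Subtype.ext
            apply hf
            refine LinearMap.ext fun v => ?_
            rw [hω z v, hz, Units.val_one, one_smul, Module.End.one_apply]
          have hcyc : IsCyclic (Subgroup.center (G ⧸ ρ.ker)) :=
            isCyclic_of_injective_ringHom ((Units.coeHom ℂ).comp ω)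
              (Units.val_injective.comp hωi)
          let q : (⊤ : Subgroup G) →* G ⧸ ρ.ker := π.comp (⊤ : Subgroup G).subtype
          have hq : Function.Surjective q := by
            intro x
            obtain ⟨g, rfl⟩ := hπ x
            exact ⟨⟨g, Subgroup.mem_top g⟩, rfl⟩
          have hm : ∀ N : Subgroup G, (N.subgroupOf ⊤).map q = N.map π := by
            intro N
            ext x
            constructor
            · rintro ⟨y, hy, rfl⟩
              exact ⟨y, hy, rfl⟩
            · rintro ⟨y, hy, rfl⟩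
              exact ⟨⟨y, Subgroup.mem_top y⟩, hy, rfl⟩
          obtain ⟨i, Y, hYn, hY0, hYK, hR⟩ := hSec ⊤ _ q hq hcyc hab (by
            rw [hm]
            obtain ⟨a, ha, b, hb, hne⟩ := hY
            exact ⟨a, ha, b, hb, hne⟩)
          rw [hm] at hYK
          obtain ⟨θ₀, θ₁, h1, h2, h3, s', h4, h5⟩ := hdec i
          rw [hχψ]
          refine rig_good hπ hψ hYn ?_ hYK hR hA h1 h2 h3 h4 h5
          by_contra hcon
          push Not at hcon
          apply hY0
          have hX : Fintype (G ⧸ ρ.ker) := Fintype.ofFinite _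
          have hYf : Fintype Y := Fintype.ofFinite _
          rw [eq_bot_iff]
          intro y hy
          rw [Subgroup.mem_bot]
          rcases hσ.normal_dich Y with h6 | h6
          · exact hf y (h6 y hy)
          · exfalso
            have h7 := h6 1
            have h8 : ∀ x : Y, σ.character (1 * x) = σ.character 1 := by
              intro x
              rw [one_mul]
              exact hcon x x.2
            rw [Finset.sum_congr rfl (fun x _ => h8 x), Finset.sum_const, nsmul_eq_mul,
              Finset.card_univ] at h7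
            have h9 : (Fintype.card Y : ℂ) ≠ 0 := by
              rw [← Nat.card_eq_fintype_card]
              exact card_ne
            rcases mul_eq_zero.mp h7 with h10 | h10
            · exact h9 h10
            · obtain ⟨d, hd, h11⟩ := irr_deg_pos hψ
              rw [h10] at h11
              norm_cast at h11
              omega

end Pool.Agent.N28.DL
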