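import Mathlib
import Pool.Agent.N28.DL.Gen

/-!
# From characters to Deligne's conjecture
-/

set_option autoImplicit false
set_option linter.unusedSectionVars false

namespace Pool.Agent.N28.DL

open Pool.Agent.H302R2 Pool.Agent.H302R3 Pool.Agent.H541R3.ART Pool.Agent.W446.AS Pool.Agent.R389
  Filter Topology

variable {G : Type} [Group G] [Finite G] {E : Type} [Field E]
  {L : (E →+* ℂ) → (G → ℂ) → ℂ → ℂ} {P : (E →+* ℂ) → (G → ℂ) → ℂ} {c : ℂ}

/-- **From characters to Deligne's conjecture**, for characters -/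
theorem bridge' {ζ : E} (hζ : IsPrimitiveRoot ζ (Monoid.exponent G))
    (hL : ∀ τ, ∀ χ ∈ Irr G, MeromorphicAt (L τ χ) c ∧ meromorphicOrderAt (L τ χ) c ≠ ⊤)
    (hP : ∀ τ, ∀ χ ∈ Irr G, P τ χ ≠ 0)
    (hmon : ∀ (U : Subgroup G) (ψ : U →* Eˣ),
      Deligne L P c (ind U (fun u => ((ψ u : Eˣ) : E)))) (τ₀ : E →+* ℂ)
    (hall : ∀ χ ∈ Irr G, χ ∈ MonPA G ⊔
      (GoodA (theta (ords (L τ₀) c) : G → ℂ)).toAddSubmonoid)
    {f : G → E} (hf : (fun g => τ₀ (f g)) ∈ AddSubmonoid.closure (Irr G)) :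
    Deligne L P c f := by
  classical
  have h1 : (fun g => τ₀ (f g)) ∈
      MonPA G ⊔ (GoodA (theta (ords (L τ₀) c) : G → ℂ)).toAddSubmonoid :=
    (AddSubmonoid.closure_le.mpr hall) hf
  obtain ⟨a, ha, s, hsG, has⟩ := AddSubmonoid.mem_sup.mp h1
  obtain ⟨fa, ea, ha1, ha2⟩ := monA_del hζ hL hP hmon τ₀ ha
  obtain ⟨fs, es, hs1, -, hs2⟩ := goodA_unit hζ hL hP hmon τ₀ hsG
  have h2 : f = fa + fs := by
    funext g
    apply τ₀.injective
    rw [Pi.add_apply, map_add, ha1, hs1]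
    exact (congrFun has g).symm
  rw [h2]
  exact (ha2.add hL hP hs2).deligne

/-- **From characters to Deligne's conjecture.** -/
theorem bridge {ζ : E} (hζ : IsPrimitiveRoot ζ (Monoid.exponent G))
    (hL : ∀ τ, ∀ χ ∈ Irr G, MeromorphicAt (L τ χ) c ∧ meromorphicOrderAt (L τ χ) c ≠ ⊤)
    (hP : ∀ τ, ∀ χ ∈ Irr G, P τ χ ≠ 0)
    (hmon : ∀ (U : Subgroup G) (ψ : U →* Eˣ),
      Deligne L P c (ind U (fun u => ((ψ u : Eˣ) : E)))) (τ₀ : E →+* ℂ)
    (hall : ∀ χ ∈ Irr G, χ ∈ MonPA G ⊔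
      (GoodA (theta (ords (L τ₀) c) : G → ℂ)).toAddSubmonoid)
    {V : Type} [AddCommGroup V] [Module E V] [FiniteDimensional E V] (ρ : Representation E G V) :
    Deligne L P c ρ.character :=
  bridge' hζ hL hP hmon τ₀ hall (base_change τ₀ ρ)

/-- monomial characters and good characters -/
lemma mem_sup_of {χ : G → ℂ} {θ : G → ℂ} (h : R389.Mono χ ∨ χ ∈ GoodA θ) :
    χ ∈ MonPA G ⊔ (GoodA θ).toAddSubmonoid := by
  rcases h with ⟨U, ψ, rfl⟩ | h
  · exact AddSubmonoid.mem_sup_left (AddSubmonoid.subset_closure ⟨U, ψ, rfl⟩)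
  · exact AddSubmonoid.mem_sup_right h

end Pool.Agent.N28.DL
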