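import Mathlib
import Pool.Agent.N28.DL.Gt

/-!
# Primitive characters
-/

set_option autoImplicit false
set_option linter.unusedSectionVars false

namespace Pool.Agent.N28.DL

open Pool.Agent.H302R2 Pool.Agent.H302R3 Pool.Agent.H541R3.ART Pool.Agent.W446.AS Pool.Agent.R389

variable {G : Type} [Group G] [Finite G] {θ : G → ℂ}

lemma HA.norm_le' (h : HA θ) (g : G) : ‖θ g‖ ≤ (θ 1).re := by
  have hh : HH θ := { conj := h.conj, nat := fun U ψ _ => h.nat U ψ }
  exact hh.norm_le g

/-- the multiplicity of a linear character of a subgroup is at most the degree -/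
lemma HA.part_one_le (h : HA θ) {s : ℕ} (hs : θ 1 = s) (W : Subgroup G) (μ : W →* ℂˣ) :
    ‖part W μ θ 1‖ ≤ s := by
  classical
  have : Fintype W := Fintype.ofFinite W
  have hn : ∀ w : W, ‖θ (1 * w) * (((μ w)⁻¹ : ℂˣ) : ℂ)‖ ≤ s := by
    intro w
    have h3 : ‖(((μ w)⁻¹ : ℂˣ) : ℂ)‖ = 1 := by
      have h4 : (((μ w)⁻¹ : ℂˣ) : ℂ) ^ (Nat.card W) = 1 := by
        rw [← Units.val_pow_eq_pow_val, ← map_inv, ← map_pow, pow_card_eq_one', map_one,
          Units.val_one]
      exact Complex.norm_eq_one_of_pow_eq_one h4 Nat.card_pos.ne'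
    rw [norm_mul, h3, mul_one]
    have h5 := HA.norm_le' h (1 * (w : G))
    rw [hs, Complex.natCast_re] at h5
    exact h5
  rw [part_eq, norm_mul, norm_inv, Complex.norm_natCast]
  have hc : (0 : ℝ) < Nat.card W := by exact_mod_cast Nat.card_pos
  rw [inv_mul_le_iff₀ hc]
  refine (norm_sum_le _ _).trans ((Finset.sum_le_sum fun w _ => hn w).trans ?_)
  rw [Finset.sum_const, Finset.card_univ, nsmul_eq_mul, ← Nat.card_eq_fintype_card]

/-- the order of a preimage -/
lemma card_comap {Y : Type} [Group Y] [Finite Y] {π : G →* Y} (hπ : Function.Surjective π)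
    (K : Subgroup Y) : Nat.card (K.comap π) = Nat.card π.ker * Nat.card K := by
  have h1 := (K.comap π).card_mul_index
  have h2 := K.card_mul_index
  have h3 := π.ker.card_mul_index
  rw [Subgroup.index_comap_of_surjective K hπ] at h1
  have h4 : π.ker.index = Nat.card Y := by
    rw [Subgroup.index_ker, MonoidHom.range_eq_top.mpr hπ, Subgroup.card_top]
  rw [h4, ← h2] at h3
  have h5 : K.index ≠ 0 := Subgroup.index_ne_zero_of_finite
  apply Nat.eq_of_mul_eq_mul_right (Nat.pos_of_ne_zero h5)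
  rw [h1, ← h3, mul_assoc]

/-- monomial multiplicities -/
lemma HA.mono_nat' (h : HA θ) {η : G → ℂ} (hη : Mono η) : ∃ k : ℕ, pr θ η = k := by
  obtain ⟨U, ψ, rfl⟩ := hη
  exact h.nat U ψ

/-- degrees of the characters of the preimage of `E` over the central character -/
lemma deg_sq {B : Type} [Group B] [Finite B] (W : Subgroup B) [W.Normal] {μ : W →* ℂˣ}
    {η : B → ℂ} (hη : η ∈ Irr B) (hημ : ∀ g, ∀ w : W, η (g * w) = η g * ((μ w : ℂˣ) : ℂ))
    (hv : ∀ x ∉ W, ∃ y : B, ∃ w : W, μ w ≠ 1 ∧ y * x * y⁻¹ = x * w) {d : ℕ} (hd : η 1 = d) :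
    Nat.card B = d ^ 2 * Nat.card W := by
  classical
  have : Fintype B := Fintype.ofFinite B
  have : Fintype W := Fintype.ofFinite W
  have hz : ∀ x ∉ W, η x = 0 := by
    intro x hx
    obtain ⟨y, w, hw, hxy⟩ := hv x hx
    have h1 := Irr.conj hη x y
    rw [hxy, hημ] at h1
    have h2 : (1 - ((μ w : ℂˣ) : ℂ)) * η x = 0 := by
      rw [sub_mul, one_mul, mul_comm _ (η x), h1, sub_self]
    rcases mul_eq_zero.mp h2 with h3 | h3
    · exfalso
      apply hw
      apply Units.ext
      rw [Units.val_one]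
      exact (sub_eq_zero.mp h3).symm
    · exact h3
  have h1 := pair_self hη
  have h2 : ∑ g : B, η g * η g⁻¹ = ∑ w : W, η w * η ((w : B)⁻¹) := by
    rw [← Finset.sum_subset (Finset.subset_univ (Finset.univ.image (Subtype.val : W → B)))]
    · rw [Finset.sum_image (fun a _ b _ h => Subtype.ext h)]
    · intro x _ hx
      rw [hz x, zero_mul]
      intro hxW
      exact hx (Finset.mem_image.mpr ⟨⟨x, hxW⟩, Finset.mem_univ _, rfl⟩)
  have h3 : ∀ w : W, η w * η ((w : B)⁻¹) = (d : ℂ) ^ 2 := by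
    intro w
    have e1 := hημ 1 w
    have e2 := hημ 1 w⁻¹
    rw [one_mul, hd] at e1
    rw [one_mul, hd, map_inv, Subgroup.coe_inv] at e2
    rw [e1, e2]
    have : ((μ w : ℂˣ) : ℂ) * (((μ w)⁻¹ : ℂˣ) : ℂ) = 1 := by
      rw [← Units.val_mul, mul_inv_cancel, Units.val_one]
    linear_combination (d : ℂ) ^ 2 * this
  rw [h2, Finset.sum_congr rfl (fun w _ => h3 w), Finset.sum_const, Finset.card_univ,
    nsmul_eq_mul, ← Nat.card_eq_fintype_card] at h1
  have h4 : ((Nat.card W * d ^ 2 : ℕ) : ℂ) = ((Nat.card B : ℕ) : ℂ) := by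
    push_cast
    exact h1
  have h5 : Nat.card W * d ^ 2 = Nat.card B := by exact_mod_cast h4
  rw [← h5, mul_comm]

theorem prim {r : ℕ} {N : Subgroup G} [N.Normal] {V : Type} [AddCommGroup V] [Module ℂ V]
    [FiniteDimensional ℂ V] {ρ : Representation ℂ G V} (hρ : Irred ρ) {X : Type} [Group X]
    {π : G →* X} (hπ : Function.Surjective π) {σ : Representation ℂ X V}
    (hσρ : ∀ g, σ (π g) = ρ g) (hf : ∀ x, σ x = 1 → x = 1)
    (hab : ∀ A : Subgroup X, A.Normal → (∀ a ∈ A, ∀ b ∈ A, a * b = b * a) →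
      A ≤ Subgroup.center X) {E : Subgroup X} (hEn : E.Normal) (hZE : Subgroup.center X ≤ E)
    (hEN : E ≤ N.map π ⊔ Subgroup.center X)
    (hEc : ∀ x ∈ E, ∀ y ∈ E, x * y * x⁻¹ * y⁻¹ ∈ Subgroup.center X)
    (hEne : E ≠ Subgroup.center X)
    (hED : ∀ D : ℕ, Nat.card E = D ^ 2 * Nat.card (Subgroup.center X) → r < D)
    {θ₀ θ₁ : G → ℂ} (hsum : θ = θ₀ + θ₁) (hA : HA θ) (hA1 : HA θ₁)
    (h0 : ∀ g, ∀ k ∈ ⁅N, N⁆, θ₀ (g * k) = θ₀ g) {s : ℕ} (hs : s ≤ r) (hs1 : θ₁ 1 = s) :
    ρ.character ∈ GoodA θ := by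
  classical
  have : Finite X := Finite.of_surjective π hπ
  have hσ : Irred σ := ⟨hρ.1, fun W hW => hρ.2 W fun g v hv => by
    rw [← hσρ]; exact hW (π g) v hv⟩
  obtain ⟨ω, hω⟩ := hσ.central
  have hnt := hρ.1
  obtain ⟨v₀, hv₀⟩ := exists_ne (0 : V)
  have hωi : ∀ z, ω z = 1 → z = 1 := by
    intro z hz
    apply Subtype.ext
    apply hf
    refine LinearMap.ext fun v => ?_
    rw [hω z v, hz, Units.val_one, one_smul, Module.End.one_apply]
  -- the preimage of the centre
  let W : Subgroup G := (Subgroup.center X).comap π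
  have hWn : W.Normal := Subgroup.Normal.comap inferInstance π
  let πW : W →* Subgroup.center X :=
    { toFun := fun w => ⟨π w, w.2⟩
      map_one' := by apply Subtype.ext; simp
      map_mul' := by intro a b; apply Subtype.ext; simp }
  let μ : W →* ℂˣ := ω.comp πW
  have hμinv : ∀ (g : G) (w : W), μ (MulAut.conjNormal g w) = μ w := by
    intro g w
    have : πW (MulAut.conjNormal g w) = πW w := by
      apply Subtype.ext
      change π ((MulAut.conjNormal g w : W) : G) = π w
      rw [MulAut.conjNormal_apply, map_mul, map_mul, map_inv]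
      have h1 := Subgroup.mem_center_iff.mp w.2 (π g)
      rw [h1, mul_inv_cancel_right]
    change ω (πW _) = ω (πW w)
    rw [this]
  have hρμ : ∀ (w : W) (v : V), ρ w v = ((μ w : ℂˣ) : ℂ) • v := by
    intro w v
    rw [← hσρ]
    exact hω (πW w) v
  have hχμ : ∀ g, ∀ w : W, ρ.character (g * w) = ρ.character g * ((μ w : ℂˣ) : ℂ) := by
    intro g w
    have h1 : ρ (g * w) = ((μ w : ℂˣ) : ℂ) • ρ g := by
      refine LinearMap.ext fun v => ?_
      rw [map_mul, Module.End.mul_apply, hρμ w v, map_smul, LinearMap.smul_apply]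
    change LinearMap.trace ℂ _ (ρ (g * w)) = LinearMap.trace ℂ _ (ρ g) * _
    rw [h1, map_smul, smul_eq_mul, mul_comm]
  -- noncommuting elements
  have hnc : ∃ x ∈ E, ∃ y ∈ E, x * y ≠ y * x := by
    by_contra hcon
    push Not at hcon
    exact hEne (le_antisymm (hab E hEn hcon) hZE)
  -- an element of the derived subgroup
  obtain ⟨k, hkN, hkW, hk⟩ : ∃ k : G, k ∈ ⁅N, N⁆ ∧ ∃ hk : k ∈ W, μ ⟨k, hk⟩ ≠ 1 := by
    obtain ⟨x, hx, y, hy, hxy⟩ := hnc
    obtain ⟨_, ⟨n, hn, rfl⟩, z, hz, rfl⟩ := Subgroup.mem_sup_of_normal_right.mp (hEN hx)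
    obtain ⟨_, ⟨n', hn', rfl⟩, z', hz', rfl⟩ := Subgroup.mem_sup_of_normal_right.mp (hEN hy)
    have e1 := Subgroup.mem_center_iff.mp hz
    have e2 := Subgroup.mem_center_iff.mp hz'
    have h1 : π n * z * (π n' * z') * (π n * z)⁻¹ * (π n' * z')⁻¹ = π (n * n' * n⁻¹ * n'⁻¹) := by
      rw [map_mul, map_mul, map_mul, map_inv, map_inv]
      have f1 : π n * z * (π n' * z') = π n * π n' * z * z' := by
        rw [mul_assoc, ← mul_assoc z, ← e1 (π n')]
        group
      rw [f1, mul_inv_rev, mul_inv_rev]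
      have f2 : z * z' * (z⁻¹ * (π n)⁻¹) = z' * (π n)⁻¹ := by
        rw [e2 z]
        group
      calc π n * π n' * z * z' * (z⁻¹ * (π n)⁻¹) * (z'⁻¹ * (π n')⁻¹)
          = π n * π n' * (z * z' * (z⁻¹ * (π n)⁻¹)) * (z'⁻¹ * (π n')⁻¹) := by group
        _ = π n * π n' * (z' * (π n)⁻¹) * (z'⁻¹ * (π n')⁻¹) := by rw [f2]
        _ = π n * π n' * ((π n)⁻¹ * z') * (z'⁻¹ * (π n')⁻¹) := by rw [e2]
        _ = _ := by group
    have h2 := hEc _ hx _ hy
    rw [h1] at h2
    refine ⟨n * n' * n⁻¹ * n'⁻¹, ?_, h2, fun h3 => ?_⟩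
    · have := Subgroup.commutator_mem_commutator hn hn'
      rwa [commutatorElement_def] at this
    · have h4 := hωi _ h3
      have h5 : π (n * n' * n⁻¹ * n'⁻¹) = 1 := congrArg Subtype.val h4
      rw [← h1] at h5
      apply hxy
      have h6 : ∀ a b : X, a * b * a⁻¹ * b⁻¹ = 1 → a * b = b * a := by
        intro a b h
        have := congrArg (fun t => t * b * a) h
        simpa [mul_assoc] using this
      exact h6 _ _ h5
  refine goodA_zero (N := W) (μ := μ) hA.conj hμinv ?_ (AddSubgroup.subset_closure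
    (irr_of_irred hρ)) hχμ
  have hadd : part W μ θ = part W μ θ₀ + part W μ θ₁ := by
    rw [hsum]; exact map_add (partHom W μ) θ₀ θ₁
  have hp0 : part W μ θ₀ = 0 := part_inv_zero (k := ⟨k, hkW⟩) hk (fun g => h0 g k hkN)
  rw [hadd, hp0, zero_add]
  refine hA1.part_zero hμinv ?_
  -- the preimage of `E`
  let B : Subgroup G := E.comap π
  have hWB : W ≤ B := fun w hw => hZE hw
  let μB := rmu hWB μ
  have hμB : ∀ (g : B) (n : W.subgroupOf B), μB (MulAut.conjNormal g n) = μB n :=
    rmu_inv hWB μ (fun g _ n => hμinv g n)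
  have hAB : HA (fun x : B => θ₁ x) := hA1.res B
  have hcardB : Nat.card B = Nat.card π.ker * Nat.card E := by
    have := card_comap hπ E
    exact this
  have hcardW : Nat.card W = Nat.card π.ker * Nat.card (Subgroup.center X) :=
    card_comap hπ (Subgroup.center X)
  -- the degrees
  have hdeg : ∀ η ∈ Irr B, part (W.subgroupOf B) μB η ≠ 0 → ∀ d : ℕ, η 1 = d → r < d := by
    intro η hη hne d hd
    have hημ : ∀ g, ∀ w : W.subgroupOf B, η (g * w) = η g * ((μB w : ℂˣ) : ℂ) := by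
      rcases irr_part hμB hη with h | h
      · exact h
      · exact absurd h hne
    have h1 := deg_sq (W.subgroupOf B) hη hημ (by
      intro x hx
      have hxW : (x : G) ∉ W := fun h => hx (Subgroup.mem_subgroupOf.mpr h)
      have hxE : π x ∈ E := x.2
      -- the centre of `E`
      let A : Subgroup X :=
        { carrier := {a | a ∈ E ∧ ∀ e ∈ E, a * e = e * a}
          one_mem' := ⟨one_mem _, fun e _ => by rw [one_mul, mul_one]⟩
          mul_mem' := by
            rintro a b ⟨ha, ha'⟩ ⟨hb, hb'⟩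
            refine ⟨mul_mem ha hb, fun e he => ?_⟩
            rw [mul_assoc, hb' e he, ← mul_assoc, ha' e he, mul_assoc]
          inv_mem' := by
            rintro a ⟨ha, ha'⟩
            refine ⟨inv_mem ha, fun e he => ?_⟩
            have := ha' e he
            rw [inv_mul_eq_iff_eq_mul, ← mul_assoc, this, mul_inv_cancel_right] }
      have hAn : A.Normal := by
        refine ⟨fun a ha g => ⟨hEn.conj_mem a ha.1 g, fun e he => ?_⟩⟩
        have h3 := ha.2 (g⁻¹ * e * g) (by
          have := hEn.conj_mem e he g⁻¹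
          rwa [inv_inv] at this)
        calc g * a * g⁻¹ * e = g * (a * (g⁻¹ * e * g)) * g⁻¹ := by group
          _ = g * (g⁻¹ * e * g * a) * g⁻¹ := by rw [h3]
          _ = _ := by group
      have hAz : A ≤ Subgroup.center X := hab A hAn (fun a ha b hb => ha.2 b hb.1)
      obtain ⟨e, he, hxe⟩ : ∃ e ∈ E, π x * e ≠ e * π x := by
        by_contra hcon
        push Not at hcon
        exact hxW (hAz ⟨hxE, hcon⟩)
      obtain ⟨y, rfl⟩ := hπ e
      have hyB : y ∈ B := he
      have hwW : (x : G)⁻¹ * (y * x * y⁻¹) ∈ W := by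
        change π _ ∈ Subgroup.center X
        have h3 := hEc (π x)⁻¹ (inv_mem hxE) (π y) he
        rw [inv_inv] at h3
        rw [map_mul, map_mul, map_mul, map_inv, map_inv]
        have h4 : (π x)⁻¹ * (π y * π x * (π y)⁻¹) = (π x)⁻¹ * π y * π x * (π y)⁻¹ := by group
        rw [h4]
        exact h3
      refine ⟨⟨y, hyB⟩, ⟨⟨(x : G)⁻¹ * (y * x * y⁻¹), hWB hwW⟩,
        Subgroup.mem_subgroupOf.mpr hwW⟩, ?_, ?_⟩
      · intro h3
        have h4 : μ ⟨(x : G)⁻¹ * (y * x * y⁻¹), hwW⟩ = 1 := h3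
        have h5 := hωi _ h4
        have h6 : π ((x : G)⁻¹ * (y * x * y⁻¹)) = 1 := congrArg Subtype.val h5
        apply hxe
        rw [map_mul, map_mul, map_mul, map_inv, map_inv] at h6
        have h7 : π y * π x * (π y)⁻¹ = π x := by
          have := congrArg (fun t => π x * t) h6
          simpa using this
        have h8 : π y * π x = π x * π y := mul_inv_eq_iff_eq_mul.mp h7
        exact h8.symm
      · apply Subtype.ext
        change y * (x : G) * y⁻¹ = (x : G) * ((x : G)⁻¹ * (y * x * y⁻¹))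
        group) hd
    apply hED d
    have h2 : Nat.card (W.subgroupOf B) = Nat.card W :=
      Nat.card_congr (Subgroup.subgroupOfEquivOfLe hWB).toEquiv
    rw [h2, hcardB, hcardW] at h1
    have h3 : 0 < Nat.card π.ker := Nat.card_pos
    apply Nat.eq_of_mul_eq_mul_left h3
    rw [h1]
    ring
  -- the quotient is abelian
  have hnil : Group.IsNilpotent (B ⧸ W.subgroupOf B) := by
    have hcom : ∀ a b : B ⧸ W.subgroupOf B, a * b = b * a := by
      intro a b
      obtain ⟨x, rfl⟩ := QuotientGroup.mk_surjective a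
      obtain ⟨y, rfl⟩ := QuotientGroup.mk_surjective b
      change (QuotientGroup.mk (x * y) : B ⧸ W.subgroupOf B) = QuotientGroup.mk (y * x)
      rw [QuotientGroup.eq, Subgroup.mem_subgroupOf]
      change π _ ∈ Subgroup.center X
      have h3 := hEc (π y)⁻¹ (inv_mem y.2) (π x)⁻¹ (inv_mem x.2)
      have h4 : π (((x * y)⁻¹ * (y * x) : B) : G) = (π y)⁻¹ * (π x)⁻¹ * (π y)⁻¹⁻¹ * (π x)⁻¹⁻¹ := by
        push_cast
        rw [map_mul, map_inv, map_mul, map_mul]
        group
      rw [h4]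
      exact h3
    let _ : CommGroup (B ⧸ W.subgroupOf B) :=
      { (inferInstance : Group (B ⧸ W.subgroupOf B)) with mul_comm := hcom }
    exact CommGroup.isNilpotent
  -- the expansion
  have hval : part W μ θ₁ 1 = ∑ η ∈ irrF B,
      pr (fun x : B => θ₁ x) η * part (W.subgroupOf B) μB η 1 := by
    rw [← part_expand hAB.conj, part_res hWB μ θ₁ 1, Subgroup.coe_one]
  have hterm : ∀ η ∈ irrF B, ∃ k : ℕ,
      pr (fun x : B => θ₁ x) η * part (W.subgroupOf B) μB η 1 = k ∧ (k ≠ 0 → r < k) := by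
    intro η hη
    have hη' := mem_irrF.mp hη
    by_cases hne : part (W.subgroupOf B) μB η = 0
    · exact ⟨0, by rw [hne]; simp, fun h => absurd rfl h⟩
    · obtain ⟨k, hk⟩ := HA.mono_nat' hAB (mono_of_nil hμB hη' hne hnil)
      obtain ⟨d, hd0, hd⟩ := irr_deg_pos hη'
      have hrd := hdeg η hη' hne d hd
      refine ⟨k * d, ?_, fun h => ?_⟩
      · rcases irr_part' hμB hη' with h | h
        · rw [h, hk, hd]; push_cast; rfl
        · exact absurd h hne
      · have hk0 : k ≠ 0 := fun h' => h (by rw [h', zero_mul])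
        calc r < d := hrd
          _ ≤ k * d := Nat.le_mul_of_pos_left d (Nat.pos_of_ne_zero hk0)
  choose! kk hkk hkk' using hterm
  have hval2 : part W μ θ₁ 1 = ((∑ η ∈ irrF B, kk η : ℕ) : ℂ) := by
    rw [hval, Nat.cast_sum]
    exact Finset.sum_congr rfl fun η hη => hkk η hη
  have hle := HA.part_one_le hA1 hs1 W μ
  rw [hval2, Complex.norm_natCast] at hle
  have hle' : ∑ η ∈ irrF B, kk η ≤ s := by exact_mod_cast hle
  have hzero : ∀ η ∈ irrF B, kk η = 0 := by
    intro η hη
    by_contra hne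
    have h1 := hkk' η hη hne
    have h2 : kk η ≤ ∑ η ∈ irrF B, kk η := Finset.single_le_sum (fun _ _ => Nat.zero_le _) hη
    omega
  rw [hval2, Finset.sum_eq_zero hzero]
  simp

end Pool.Agent.N28.DL
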