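import Mathlib
import Pool.Agent.N28.DL.Gen
import Pool.Agent.N28.DL.Prim

/-!
# Critical subgroups are rigid
-/

set_option autoImplicit false
set_option linter.unusedSectionVars false

namespace Pool.Agent.N28.DL

open Pool.Agent.H302R2 Pool.Agent.H302R3 Pool.Agent.H541R3.ART Pool.Agent.W446.AS Pool.Agent.R389

/-- elements of order dividing `p` in a cyclic group -/
lemma mem_zpowers_of_cyclic {Z : Type} [Group Z] [Finite Z] (hZ : IsCyclic Z) {p : ℕ}
    (hp : p.Prime) {w y : Z} (hw : w ^ p = 1) (hw1 : w ≠ 1) (hy : y ^ p = 1) :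
    y ∈ Subgroup.zpowers w := by
  classical
  have : Fintype Z := Fintype.ofFinite Z
  have : Fact p.Prime := ⟨hp⟩
  have h1 : orderOf w = p := orderOf_eq_prime hw hw1
  have h2 := IsCyclic.card_pow_eq_one_le (α := Z) hp.pos
  let T : Finset Z := Finset.univ.filter (fun a => a ∈ Subgroup.zpowers w)
  have h3 : T ⊆ Finset.univ.filter (fun a => a ^ p = 1) := by
    intro a ha
    obtain ⟨k, rfl⟩ := Subgroup.mem_zpowers_iff.mp (Finset.mem_filter.mp ha).2
    refine Finset.mem_filter.mpr ⟨Finset.mem_univ _, ?_⟩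
    rw [← zpow_natCast, ← zpow_mul, mul_comm, zpow_mul, zpow_natCast, hw, one_zpow]
  have h4 : T.card = p := by
    rw [← h1, ← Nat.card_zpowers, Nat.card_eq_fintype_card, ← Fintype.card_coe]
    refine Fintype.card_congr ?_
    exact Equiv.subtypeEquivRight (fun a => by simp [T])
  have h5 : T = Finset.univ.filter (fun a => a ^ p = 1) :=
    Finset.eq_of_subset_of_card_le h3 (by rw [h4]; exact h2)
  have h6 : y ∈ T := by
    rw [h5]
    exact Finset.mem_filter.mpr ⟨Finset.mem_univ _, hy⟩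
  exact (Finset.mem_filter.mp h6).2

variable {X : Type} [Group X] [Finite X] {E : Subgroup X} {p n : ℕ}

/-- commutators in a critical subgroup -/
lemma crit_comm (hE : Crit X E p n) {x y : X} (hx : x ∈ E) (hy : y ∈ E) :
    (x * y * x⁻¹ * y⁻¹) ^ p = 1 := by
  have hc := Subgroup.mem_center_iff.mp (hE.comm x hx y hy)
  have hz : ∀ k : ℕ, x ^ k * y * (x ^ k)⁻¹ * y⁻¹ = (x * y * x⁻¹ * y⁻¹) ^ k := by
    intro k
    induction k with
    | zero => simp
    | succ k ih =>
      have e1 := hc (x ^ k)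
      calc x ^ (k + 1) * y * (x ^ (k + 1))⁻¹ * y⁻¹
          = x ^ k * (x * y * x⁻¹ * y⁻¹) * (y * (x ^ k)⁻¹ * y⁻¹) := by
            rw [pow_succ]; group
        _ = (x * y * x⁻¹ * y⁻¹) * x ^ k * (y * (x ^ k)⁻¹ * y⁻¹) := by rw [e1]
        _ = (x * y * x⁻¹ * y⁻¹) * (x ^ k * y * (x ^ k)⁻¹ * y⁻¹) := by group
        _ = (x * y * x⁻¹ * y⁻¹) ^ (k + 1) := by rw [ih, pow_succ']
  rw [← hz p]
  have h1 := Subgroup.mem_center_iff.mp (hE.pow x hx) y
  rw [← h1]
  group

/-- **Critical subgroups are rigid.** -/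
theorem crit_rig (hE : Crit X E p n) {s : ℕ} (hs : s < p ^ n) : Rig s X ⁅E, E⁆ := by
  classical
  intro η hη s' hs' h1
  let Z := Subgroup.center X
  have hZE : Z ≤ E := hE.le
  have hEZ : ⁅E, E⁆ ≤ Z := by
    rw [Subgroup.commutator_le]
    intro x hx y hy
    have := hE.comm x hx y hy
    rwa [← commutatorElement_def] at this
  have hcyc := hE.cyc
  -- elements of the derived subgroup
  have hpow : ∀ y ∈ ⁅E, E⁆, y ^ p = 1 := by
    intro y hy
    rw [Subgroup.commutator_def] at hy
    have hyz : ∀ y ∈ ⁅E, E⁆, ∀ g, g * y = y * g := fun y hy g =>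
      Subgroup.mem_center_iff.mp (hEZ hy) g
    refine Subgroup.closure_induction (p := fun y _ => y ^ p = 1) ?_ ?_ ?_ ?_ hy
    · rintro _ ⟨a, ha, b, hb, rfl⟩
      exact crit_comm hE ha hb
    · exact one_pow p
    · intro a b ha hb h2 h3
      have ha' : a ∈ ⁅E, E⁆ := by rw [Subgroup.commutator_def]; exact ha
      have : Commute a b := (hyz a ha' b).symm
      rw [this.mul_pow, h2, h3, one_mul]
    · intro a _ h2
      rw [inv_pow, h2, inv_one]
  -- the parts
  have hpart : ∀ μ : Z →* ℂˣ, (∃ y : Z, (y : X) ∈ ⁅E, E⁆ ∧ μ y ≠ 1) → part Z μ η = 0 := by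
    rintro μ ⟨y, hy, hμy⟩
    have hμinv : ∀ (g : X) (w : Z), μ (MulAut.conjNormal g w) = μ w := by
      intro g w
      congr 1
      apply Subtype.ext
      rw [MulAut.conjNormal_apply]
      have h1 := Subgroup.mem_center_iff.mp w.2 g
      rw [h1, mul_inv_cancel_right]
    have hμ1 : ∀ w : Z, (w : X) ^ p = 1 → w ≠ 1 → μ w ≠ 1 := by
      intro w hw hw1 hμw
      have hw' : w ^ p = 1 := Subtype.ext (by push_cast; exact hw)
      have hy' : y ^ p = 1 := Subtype.ext (by push_cast; exact hpow y hy)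
      obtain ⟨k, rfl⟩ := Subgroup.mem_zpowers_iff.mp
        (mem_zpowers_of_cyclic hcyc hE.prime hw' hw1 hy')
      apply hμy
      rw [map_zpow, hμw, one_zpow]
    refine hη.part_zero hμinv ?_
    let μB := rmu hZE μ
    have hμB : ∀ (g : E) (n : Z.subgroupOf E), μB (MulAut.conjNormal g n) = μB n :=
      rmu_inv hZE μ (fun g _ n => hμinv g n)
    have hAB : HA (fun x : E => η x) := hη.res E
    -- the degrees
    have hdeg : ∀ χ ∈ Irr E, part (Z.subgroupOf E) μB χ ≠ 0 → ∀ d : ℕ, χ 1 = d → s < d := by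
      intro χ hχ hne d hd
      have hχμ : ∀ g, ∀ w : Z.subgroupOf E, χ (g * w) = χ g * ((μB w : ℂˣ) : ℂ) := by
        rcases irr_part hμB hχ with h | h
        · exact h
        · exact absurd h hne
      have h1 := deg_sq (Z.subgroupOf E) hχ hχμ (by
        intro x hx
        have hxZ : (x : X) ∉ Z := fun h => hx (Subgroup.mem_subgroupOf.mpr h)
        obtain ⟨e, he, hxe⟩ : ∃ e ∈ E, (x : X) * e ≠ e * x := by
          by_contra hcon
          push Not at hcon
          exact hxZ (hE.cent x x.2 hcon)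
        have hwZ : (x : X)⁻¹ * (e * x * e⁻¹) ∈ Z := by
          have h3 := hE.comm (x : X)⁻¹ (inv_mem x.2) e he
          rw [inv_inv] at h3
          have h4 : (x : X)⁻¹ * (e * x * e⁻¹) = (x : X)⁻¹ * e * x * e⁻¹ := by group
          rw [h4]
          exact h3
        refine ⟨⟨e, he⟩, ⟨⟨(x : X)⁻¹ * (e * x * e⁻¹), hZE hwZ⟩,
          Subgroup.mem_subgroupOf.mpr hwZ⟩, ?_, ?_⟩
        · change μ ⟨(x : X)⁻¹ * (e * x * e⁻¹), hwZ⟩ ≠ 1
          refine hμ1 _ ?_ ?_
          · have h3 := crit_comm hE (inv_mem x.2) he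
            rw [inv_inv] at h3
            have h4 : (x : X)⁻¹ * (e * x * e⁻¹) = (x : X)⁻¹ * e * x * e⁻¹ := by group
            change ((x : X)⁻¹ * (e * x * e⁻¹)) ^ p = 1
            rw [h4, h3]
          · intro h5
            have h6 : (x : X)⁻¹ * (e * x * e⁻¹) = 1 := congrArg Subtype.val h5
            apply hxe
            have h7 : e * (x : X) * e⁻¹ = x := by
              have := congrArg (fun t => (x : X) * t) h6
              simpa using this
            exact (mul_inv_eq_iff_eq_mul.mp h7).symm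
        · apply Subtype.ext
          change e * (x : X) * e⁻¹ = (x : X) * ((x : X)⁻¹ * (e * x * e⁻¹))
          group) hd
      have h2 : Nat.card (Z.subgroupOf E) = Nat.card Z :=
        Nat.card_congr (Subgroup.subgroupOfEquivOfLe hZE).toEquiv
      rw [h2, hE.card] at h1
      have h3 : 0 < Nat.card Z := Nat.card_pos
      have h4 : p ^ (2 * n) = d ^ 2 := Nat.eq_of_mul_eq_mul_right h3 h1
      have h5 : (p ^ n) ^ 2 = d ^ 2 := by rw [← h4, ← pow_mul, mul_comm]
      have h6 : p ^ n = d := Nat.pow_left_injective (by norm_num : 2 ≠ 0) h5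
      omega
    -- the quotient is abelian
    have hnil : Group.IsNilpotent (E ⧸ Z.subgroupOf E) := by
      have hcom : ∀ a b : E ⧸ Z.subgroupOf E, a * b = b * a := by
        intro a b
        obtain ⟨x, rfl⟩ := QuotientGroup.mk_surjective a
        obtain ⟨y, rfl⟩ := QuotientGroup.mk_surjective b
        change (QuotientGroup.mk (x * y) : E ⧸ Z.subgroupOf E) = QuotientGroup.mk (y * x)
        rw [QuotientGroup.eq, Subgroup.mem_subgroupOf]
        have h3 := hE.comm (y : X)⁻¹ (inv_mem y.2) (x : X)⁻¹ (inv_mem x.2)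
        have h4 : (((x * y)⁻¹ * (y * x) : E) : X)
            = (y : X)⁻¹ * (x : X)⁻¹ * (y : X)⁻¹⁻¹ * (x : X)⁻¹⁻¹ := by
          push_cast
          group
        rw [h4]
        exact h3
      let _ : CommGroup (E ⧸ Z.subgroupOf E) :=
        { (inferInstance : Group (E ⧸ Z.subgroupOf E)) with mul_comm := hcom }
      exact CommGroup.isNilpotent
    -- the expansion
    have hval : part Z μ η 1 = ∑ χ ∈ irrF E,
        pr (fun x : E => η x) χ * part (Z.subgroupOf E) μB χ 1 := by
      rw [← part_expand hAB.conj, part_res hZE μ η 1, Subgroup.coe_one]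
    have hterm : ∀ χ ∈ irrF E, ∃ k : ℕ,
        pr (fun x : E => η x) χ * part (Z.subgroupOf E) μB χ 1 = k ∧ (k ≠ 0 → s < k) := by
      intro χ hχ
      have hχ' := mem_irrF.mp hχ
      by_cases hne : part (Z.subgroupOf E) μB χ = 0
      · exact ⟨0, by rw [hne]; simp, fun h => absurd rfl h⟩
      · obtain ⟨k, hk⟩ := HA.mono_nat' hAB (mono_of_nil hμB hχ' hne hnil)
        obtain ⟨d, hd0, hd⟩ := irr_deg_pos hχ'
        have hrd := hdeg χ hχ' hne d hd
        refine ⟨k * d, ?_, fun h => ?_⟩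
        · rcases irr_part' hμB hχ' with h | h
          · rw [h, hk, hd]; push_cast; rfl
          · exact absurd h hne
        · have hk0 : k ≠ 0 := fun h' => h (by rw [h', zero_mul])
          calc s < d := hrd
            _ ≤ k * d := Nat.le_mul_of_pos_left d (Nat.pos_of_ne_zero hk0)
    choose! kk hkk hkk' using hterm
    have hval2 : part Z μ η 1 = ((∑ χ ∈ irrF E, kk χ : ℕ) : ℂ) := by
      rw [hval, Nat.cast_sum]
      exact Finset.sum_congr rfl fun χ hχ => hkk χ hχ
    have hle := HA.part_one_le hη h1 Z μ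
    rw [hval2, Complex.norm_natCast] at hle
    have hle' : ∑ χ ∈ irrF E, kk χ ≤ s' := by exact_mod_cast hle
    have hzero : ∀ χ ∈ irrF E, kk χ = 0 := by
      intro χ hχ
      by_contra hne
      have h1 := hkk' χ hχ hne
      have h2 : kk χ ≤ ∑ χ ∈ irrF E, kk χ := Finset.single_le_sum (fun _ _ => Nat.zero_le _) hχ
      omega
    rw [hval2, Finset.sum_eq_zero hzero]
    simp
  -- the sum of the parts
  have : Fintype (Z →* ℂˣ) := Fintype.ofFinite _
  have hcomm : ∀ g, ∀ k ∈ ⁅Z, Z⁆, η (g * k) = η g := by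
    intro g k hk
    have h2 : ⁅Z, Z⁆ = ⊥ := by
      rw [eq_bot_iff, Subgroup.commutator_le]
      intro a ha b hb
      rw [Subgroup.mem_bot, commutatorElement_def, Subgroup.mem_center_iff.mp hb a]
      group
    rw [h2, Subgroup.mem_bot] at hk
    rw [hk, mul_one]
  intro x y hy
  rw [← sum_part Z hcomm, ← sum_part Z hcomm x]
  refine Finset.sum_congr rfl fun μ _ => ?_
  by_cases h : ∃ y : Z, (y : X) ∈ ⁅E, E⁆ ∧ μ y ≠ 1
  · rw [hpart μ h]
    rfl
  · push Not at h
    have h2 := part_mul_mem Z μ η x ⟨y, hEZ hy⟩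
    rw [h ⟨y, hEZ hy⟩ hy, Units.val_one, mul_one] at h2
    exact h2

end Pool.Agent.N28.DL
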