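import Mathlib
import Pool.Agent.N28.DL.CritRig

/-!
# Critical subgroups in the layers of a normal series
-/

set_option autoImplicit false
set_option linter.unusedSectionVars false

namespace Pool.Agent.N28.DL

open Pool.Agent.H302R2 Pool.Agent.H302R3 Pool.Agent.H541R3.ART Pool.Agent.W446.AS Pool.Agent.R389

/-- commutators of powers when the commutator is central -/
lemma comm_pow_left {X : Type} [Group X] {x y w : X} (hw : w = x * y * x⁻¹ * y⁻¹)
    (hc : ∀ g, g * w = w * g) (k : ℕ) : x ^ k * y * (x ^ k)⁻¹ * y⁻¹ = w ^ k := by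
  induction k with
  | zero => simp
  | succ k ih =>
    have e1 := hc (x ^ k)
    calc x ^ (k + 1) * y * (x ^ (k + 1))⁻¹ * y⁻¹
        = x ^ k * (x * y * x⁻¹ * y⁻¹) * (y * (x ^ k)⁻¹ * y⁻¹) := by
          rw [pow_succ]; group
      _ = x ^ k * w * (y * (x ^ k)⁻¹ * y⁻¹) := by rw [hw]
      _ = w * x ^ k * (y * (x ^ k)⁻¹ * y⁻¹) := by rw [e1]
      _ = w * (x ^ k * y * (x ^ k)⁻¹ * y⁻¹) := by group
      _ = w ^ (k + 1) := by rw [ih, pow_succ']

lemma comm_pow {X : Type} [Group X] {x y w : X} (hw : w = x * y * x⁻¹ * y⁻¹)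
    (hc : ∀ g, g * w = w * g) (k m : ℕ) :
    x ^ k * y ^ m * (x ^ k)⁻¹ * (y ^ m)⁻¹ = w ^ (k * m) := by
  have h1 := comm_pow_left hw hc k
  have h2 : (w ^ k)⁻¹ = y * x ^ k * y⁻¹ * (x ^ k)⁻¹ := by
    rw [← h1]
    group
  have hc' : ∀ g, g * (w ^ k)⁻¹ = (w ^ k)⁻¹ * g := by
    intro g
    have : Commute g w := hc g
    exact (this.pow_right k).inv_right
  have h3 := comm_pow_left h2 hc' m
  have h4 : x ^ k * y ^ m * (x ^ k)⁻¹ * (y ^ m)⁻¹
      = (y ^ m * x ^ k * (y ^ m)⁻¹ * (x ^ k)⁻¹)⁻¹ := by group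
  rw [h4, h3, inv_pow, inv_inv, pow_mul]

/-- a nonabelian `p`-subgroup in the preimage of a group of class two -/
lemma exists_nonab {M X : Type} [Group M] [Finite M] [Group X] [Finite X] (f : M →* X)
    {p : ℕ} (hp : p.Prime) (hJ : ∀ a b : M, f (a * b * a⁻¹ * b⁻¹) ∈ Subgroup.center X)
    (j j' : M) :
    ∃ (Q : Subgroup M) (m : ℕ), IsPGroup p Q ∧ ¬ p ∣ m ∧ ∃ a ∈ Q, ∃ b ∈ Q,
      f (a * b * a⁻¹ * b⁻¹) = (f (j * j' * j⁻¹ * j'⁻¹)) ^ m := by
  classical
  have : Fact p.Prime := ⟨hp⟩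
  let f' : M →* f.range := f.rangeRestrict
  have hf' : Function.Surjective f' := f.rangeRestrict_surjective
  -- the image is nilpotent
  have hcen : ∀ a b : f.range, a * b * a⁻¹ * b⁻¹ ∈ Subgroup.center f.range := by
    intro a b
    obtain ⟨a, rfl⟩ := hf' a
    obtain ⟨b, rfl⟩ := hf' b
    rw [Subgroup.mem_center_iff]
    intro g
    apply Subtype.ext
    have h1 := Subgroup.mem_center_iff.mp (hJ a b) (g : X)
    rw [map_mul, map_mul, map_mul, map_inv, map_inv] at h1
    exact h1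
  have hnil : Group.IsNilpotent f.range := by
    have hcom : ∀ a b : f.range ⧸ Subgroup.center f.range, a * b = b * a := by
      intro a b
      obtain ⟨x, rfl⟩ := QuotientGroup.mk_surjective a
      obtain ⟨y, rfl⟩ := QuotientGroup.mk_surjective b
      change (QuotientGroup.mk (x * y) : f.range ⧸ Subgroup.center f.range)
        = QuotientGroup.mk (y * x)
      rw [QuotientGroup.eq]
      have h4 : (x * y)⁻¹ * (y * x) = y⁻¹ * x⁻¹ * y⁻¹⁻¹ * x⁻¹⁻¹ := by group
      rw [h4]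
      exact hcen _ _
    let _ : CommGroup (f.range ⧸ Subgroup.center f.range) :=
      { (inferInstance : Group (f.range ⧸ Subgroup.center f.range)) with mul_comm := hcom }
    have h1 : Group.IsNilpotent (f.range ⧸ Subgroup.center f.range) := CommGroup.isNilpotent
    exact Group.of_quotient_center_nilpotent h1
  -- the Sylow subgroups
  obtain ⟨P⟩ : Nonempty (Sylow p M) := inferInstance
  let P' : Sylow p f.range := P.mapSurjective hf'
  have hP'n : (P' : Subgroup f.range).Normal :=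
    (Group.isNilpotent_of_finite_tfae.out 0 3 rfl rfl).mp hnil p ⟨hp⟩ P'
  have hmem : ∀ (z : f.range) (a : ℕ), z ^ (p ^ a) = 1 → z ∈ (P' : Subgroup f.range) := by
    intro z a hz
    have h1 : IsPGroup p (Subgroup.zpowers z) := by
      rintro ⟨_, k, rfl⟩
      refine ⟨a, Subtype.ext ?_⟩
      change (z ^ k) ^ (p ^ a) = 1
      rw [← zpow_natCast, ← zpow_mul, mul_comm, zpow_mul, zpow_natCast, hz, one_zpow]
    obtain ⟨Q, hQ⟩ := h1.exists_le_sylow
    have h2 : Q = P' := by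
      have := Sylow.unique_of_normal P' hP'n
      exact Subsingleton.elim _ _
    rw [← h2]
    exact hQ (Subgroup.mem_zpowers z)
  -- the elements
  have hcomp : ∀ z : f.range, ∃ t : ℕ, ¬ p ∣ t ∧ z ^ t ∈ (P' : Subgroup f.range) := by
    intro z
    have hz : orderOf z ≠ 0 := (orderOf_pos z).ne'
    refine ⟨orderOf z / p ^ (orderOf z).factorization p, Nat.not_dvd_ordCompl hp hz, ?_⟩
    apply hmem _ ((orderOf z).factorization p)
    rw [← pow_mul, Nat.div_mul_cancel (Nat.ordProj_dvd _ _), pow_orderOf_eq_one]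
  obtain ⟨t, ht, hu⟩ := hcomp (f' j)
  obtain ⟨t', ht', hv⟩ := hcomp (f' j')
  have hu' : f' j ^ t ∈ (P : Subgroup M).map f' := hu
  have hv' : f' j' ^ t' ∈ (P : Subgroup M).map f' := hv
  obtain ⟨a, ha, hau⟩ := hu'
  obtain ⟨b, hb, hbv⟩ := hv'
  refine ⟨P, t * t', P.isPGroup', fun h6 => ?_, a, ha, b, hb, ?_⟩
  · rcases hp.dvd_mul.mp h6 with h7 | h7
    · exact ht h7
    · exact ht' h7
  · set w := f' j * f' j' * (f' j)⁻¹ * (f' j')⁻¹ with hwd
    have h2 := comm_pow (hwd) (fun g => Subgroup.mem_center_iff.mp (hcen _ _) g) t t'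
    have h4 : ((w : f.range) : X) = f (j * j' * j⁻¹ * j'⁻¹) := by
      rw [hwd, map_mul, map_mul, map_mul, map_inv, map_inv]
      rfl
    rw [← h4, ← Subgroup.coe_pow, ← h2, ← hau, ← hbv, map_mul, map_mul, map_mul, map_inv, map_inv]
    rfl

/-- the primes acting on a critical subgroup -/
lemma exists_prime' {X : Type} [Group X] [Finite X] {E F : Subgroup X} {p n : ℕ} [E.Normal]
    (a : Act X E p n) (hp : p.Prime) (hn : 0 < n) (hF : F ≤ a.α.ker) :
    ∃ q i : ℕ, q.Prime ∧ q ≠ p ∧ 0 < i ∧ i ≤ 2 * n ∧ q ∣ p ^ i - 1 ∧ q ∣ F.index := by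
  classical
  have : Fact p.Prime := ⟨hp⟩
  have hMfin : Finite (MulAut a.M) := inferInstance
  obtain ⟨q, hq, hqp, hqA⟩ : ∃ q, q.Prime ∧ q ≠ p ∧ q ∣ Nat.card a.α.range := by
    by_contra hcon
    push Not at hcon
    have h1 : Nat.card a.α.range = p ^ (Nat.card a.α.range).primeFactorsList.length :=
      Nat.eq_prime_pow_of_unique_prime_dvd Nat.card_pos.ne' (fun {d} hd hdvd => by
        by_contra hne
        exact hcon d hd hne hdvd)
    have h2 : IsPGroup p a.α.range := IsPGroup.of_card h1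
    have h3 : p ∣ Nat.card a.M := by
      rw [a.card]
      exact dvd_pow_self p (by omega)
    obtain ⟨b, hb, hb1⟩ := h2.exists_fixed_point_of_prime_dvd_card_of_fixed_point a.M h3
      (a := (1 : a.M)) (by
        intro x
        exact map_one (x : MulAut a.M))
    have hfix : ∀ x : X, a.α x b = b := fun x => hb ⟨a.α x, x, rfl⟩
    rcases a.irr (Subgroup.zpowers b) (by
      rintro x _ ⟨k, rfl⟩
      refine ⟨k, ?_⟩
      change b ^ k = a.α x (b ^ k)
      rw [map_zpow, hfix]) with h4 | h4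
    · apply hb1
      have h5 : b ∈ Subgroup.zpowers b := Subgroup.mem_zpowers b
      rw [h4] at h5
      exact (Subgroup.mem_bot.mp h5).symm
    · have h5 : Nat.card a.M = orderOf b := by
        rw [← Nat.card_zpowers, h4]
        exact (Nat.card_congr Subgroup.topEquiv.toEquiv).symm
      have h6 : orderOf b ≤ p := Nat.le_of_dvd hp.pos (orderOf_dvd_of_pow_eq_one (a.pow b))
      rw [← h5, a.card] at h6
      have h7 : p ^ 1 < p ^ (2 * n) := Nat.pow_lt_pow_right hp.one_lt (by omega)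
      rw [pow_one] at h7
      omega
  have : Fact q.Prime := ⟨hq⟩
  obtain ⟨β, hβ⟩ := exists_prime_orderOf_dvd_card' q hqA
  obtain ⟨x, hx⟩ := β.2
  have hβ' : orderOf (a.α x) = q := by
    rw [hx, ← hβ]
    exact Subgroup.orderOf_coe β
  obtain ⟨i, hi, hin, h3⟩ := a.prime_dvd hp hq hqp hβ'
  refine ⟨q, i, hq, hqp, hi, hin, h3, ?_⟩
  refine hqA.trans ?_
  rw [← Subgroup.index_ker]
  exact Subgroup.index_dvd_of_le hF

end Pool.Agent.N28.DL
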