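import Mathlib
import Pool.Agent.N28.DL.Layer

/-!
# Normal series with abelian factors
-/

set_option autoImplicit false
set_option linter.unusedSectionVars false

namespace Pool.Agent.N28.DL

open Pool.Agent.H302R2 Pool.Agent.H302R3 Pool.Agent.H541R3.ART Pool.Agent.W446.AS Pool.Agent.R389

/-- the subgroup generated by the derived subgroups of the `p`-subgroups of `N` -/
def derP {G : Type} [Group G] (p : ℕ) (N : Subgroup G) : Subgroup G :=
  ⨆ Q : {Q : Subgroup G // Q ≤ N ∧ IsPGroup p Q}, ⁅(Q : Subgroup G), (Q : Subgroup G)⁆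

lemma derP_le {G : Type} [Group G] {p : ℕ} {N Q : Subgroup G} (hQ : Q ≤ N) (hp : IsPGroup p Q) :
    ⁅Q, Q⁆ ≤ derP p N :=
  le_iSup (fun Q : {Q : Subgroup G // Q ≤ N ∧ IsPGroup p Q} =>
    ⁅(Q : Subgroup G), (Q : Subgroup G)⁆) ⟨Q, hQ, hp⟩

lemma derP_normal {G : Type} [Group G] (p : ℕ) (N : Subgroup G) [hN : N.Normal] :
    (derP p N).Normal := by
  refine ⟨fun x hx g => ?_⟩
  have h1 : (derP p N).map (MulAut.conj g).toMonoidHom ≤ derP p N := by
    rw [derP, Subgroup.map_iSup]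
    refine iSup_le fun Q => ?_
    rw [Subgroup.map_commutator]
    refine derP_le ?_ ?_
    · rintro _ ⟨y, hy, rfl⟩
      exact hN.conj_mem y (Q.2.1 hy) g
    · exact Q.2.2.map _
  exact h1 ⟨x, hx, rfl⟩

/-- The arithmetic condition on a layer `N / N'` for the orders `r p`: we have `r p < p ^ n` whenever
`p` is a prime, `n ≥ 1`, the group `N / N'` has at least `p ^ (2 n)` elements of order dividing `p`,
and there are a prime divisor `q ≠ p` of the index of `N` and `1 ≤ i ≤ 2 n` such that `q` divides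
`p ^ i - 1`. -/
def LayerOK {G : Type} [Group G] (N N' : Subgroup G) (r : ℕ → ℕ) : Prop :=
  ∀ p n : ℕ, p.Prime → 0 < n →
    p ^ (2 * n) * Nat.card N' ≤ Nat.card {x : G // x ∈ N ∧ x ^ p ∈ N'} →
    (∃ q i : ℕ, q.Prime ∧ q ≠ p ∧ q ∣ N.index ∧ 0 < i ∧ i ≤ 2 * n ∧ q ∣ p ^ i - 1) → r p < p ^ n

/-- the rank of the layer -/
lemma rank_layer {G : Type} [Group G] [Finite G] {N N' : Subgroup G} [N.Normal] [N'.Normal]
    (hle : N' ≤ N) (hNN : ⁅N, N⁆ ≤ N') {H : Subgroup G} {X : Type}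
    [Group X] [Finite X] {q : H →* X} (hq : Function.Surjective q) {Z E : Subgroup X}
    [Z.Normal] (hZE : Z ≤ E) (hJ' : (N'.subgroupOf H).map q ≤ Z)
    (hEJ : E ≤ (N.subgroupOf H).map q ⊔ Z) {p m : ℕ} (hpow : ∀ x ∈ E, x ^ p ∈ Z)
    (hcard : Z.relIndex E = m) :
    m * Nat.card N' ≤ Nat.card {x : G // x ∈ N ∧ x ^ p ∈ N'} := by
  classical
  let J : Subgroup X := (N.subgroupOf H).map q
  let f : H →* G ⧸ N' := (QuotientGroup.mk' N').comp H.subtype
  have hker : f.ker = N'.subgroupOf H := by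
    ext x
    rw [MonoidHom.mem_ker, Subgroup.mem_subgroupOf]
    exact QuotientGroup.eq_one_iff (x : G)
  let B : Subgroup H := E.comap q ⊓ N.subgroupOf H
  let C : Subgroup H := Z.comap q ⊓ N.subgroupOf H
  have hCB : C ≤ B := inf_le_inf_right _ (Subgroup.comap_mono hZE)
  have hkC : f.ker ≤ C := by
    rw [hker]
    refine le_inf (fun x hx => hJ' ⟨x, hx, rfl⟩) fun x hx => hle hx
  -- the index
  have hBm : B.map q ⊔ Z = E := by
    apply le_antisymm
    · refine sup_le ?_ hZE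
      rintro _ ⟨x, hx, rfl⟩
      exact hx.1
    · intro e he
      obtain ⟨_, ⟨b, hb, rfl⟩, z, hz, rfl⟩ := Subgroup.mem_sup_of_normal_right.mp (hEJ he)
      refine Subgroup.mul_mem_sup ⟨b, ⟨?_, hb⟩, rfl⟩ hz
      change q b ∈ E
      have := E.mul_mem he (E.inv_mem (hZE hz))
      rwa [mul_inv_cancel_right] at this
  have hidx : C.relIndex B = m := by
    have h1 : C.relIndex B = (Z.comap q).relIndex B := by
      rw [← Subgroup.inf_relIndex_right C B, ← Subgroup.inf_relIndex_right (Z.comap q) B]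
      congr 1
      ext x
      constructor
      · rintro ⟨⟨h1, h2⟩, h3⟩
        exact ⟨h1, h3⟩
      · rintro ⟨h1, h3⟩
        exact ⟨⟨h1, h3.2⟩, h3⟩
    rw [h1, Subgroup.relIndex_comap, ← Subgroup.relIndex_sup_right (B.map q) Z, hBm, hcard]
  let A : Subgroup (G ⧸ N') := B.map f
  have hidx' : (C.map f).relIndex A = m := by
    rw [Subgroup.relIndex_map_map, sup_eq_left.mpr hkC, sup_eq_left.mpr (hkC.trans hCB), hidx]
  have hcomm : ∀ a b : A, a * b = b * a := by
    rintro ⟨_, x, hx, rfl⟩ ⟨_, y, hy, rfl⟩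
    apply Subtype.ext
    change f x * f y = f y * f x
    rw [← map_mul, ← map_mul]
    apply QuotientGroup.eq.mpr
    apply hNN
    have h1 := Subgroup.commutator_mem_commutator (N.inv_mem hy.2) (N.inv_mem hx.2)
    rw [commutatorElement_def] at h1
    have h2 : ((x * y : H) : G)⁻¹ * ((y * x : H) : G)
        = (y : G)⁻¹ * (x : G)⁻¹ * ((y : G)⁻¹)⁻¹ * ((x : G)⁻¹)⁻¹ := by
      push_cast
      group
    change ((x * y : H) : G)⁻¹ * ((y * x : H) : G) ∈ ⁅N, N⁆
    rw [h2]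
    exact h1
  let _ : CommGroup A := { (inferInstance : Group A) with mul_comm := hcomm }
  let φ : A →* A := powMonoidHom p
  have h1 : m ∣ Nat.card φ.ker := by
    have h2 : φ.range ≤ (C.map f).subgroupOf A := by
      rintro _ ⟨⟨_, x, hx, rfl⟩, rfl⟩
      rw [Subgroup.mem_subgroupOf]
      refine ⟨x ^ p, ⟨?_, (N.subgroupOf H).pow_mem hx.2 p⟩, map_pow f x p⟩
      change q (x ^ p) ∈ Z
      rw [map_pow]
      exact hpow _ hx.1
    have h3 : m ∣ φ.range.index := by
      rw [← hidx']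
      exact Subgroup.index_dvd_of_le h2
    have h4 := φ.range.card_mul_index
    have h5 := φ.ker.card_mul_index
    rw [Subgroup.index_ker] at h5
    rw [← h5, mul_comm (Nat.card φ.ker)] at h4
    rw [← Nat.eq_of_mul_eq_mul_left Nat.card_pos h4]
    exact h3
  let T : Subgroup (G ⧸ N') := φ.ker.map A.subtype
  have hT : Nat.card T = Nat.card φ.ker :=
    (Nat.card_congr (φ.ker.equivMapOfInjective A.subtype A.subtype_injective).toEquiv).symm
  have h2 := card_comap (QuotientGroup.mk'_surjective N') T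
  rw [QuotientGroup.ker_mk', hT] at h2
  calc m * Nat.card N' ≤ Nat.card φ.ker * Nat.card N' :=
        Nat.mul_le_mul_right _ (Nat.le_of_dvd Nat.card_pos h1)
    _ = Nat.card (T.comap (QuotientGroup.mk' N')) := by rw [h2, mul_comm]
    _ ≤ _ := by
        refine Nat.card_le_card_of_injective
          (fun x : T.comap (QuotientGroup.mk' N') => (⟨x, ?_⟩ : {x : G // x ∈ N ∧ x ^ p ∈ N'})) ?_
        · obtain ⟨⟨a, ha⟩, ha1, ha2⟩ := x.2
          have ha2' : a = QuotientGroup.mk' N' (x : G) := ha2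
          constructor
          · obtain ⟨y, hy, hy1⟩ := ha
            have h3 : QuotientGroup.mk' N' (y : G) = QuotientGroup.mk' N' (x : G) := by
              rw [← ha2']
              exact hy1
            have h4 : (y : G)⁻¹ * x ∈ N' := QuotientGroup.eq.mp h3
            have h5 := N.mul_mem hy.2 (hle h4)
            change (y : G) * _ ∈ N at h5
            rwa [mul_inv_cancel_left] at h5
          · have h3 : (⟨a, ha⟩ : A) ^ p = 1 := ha1
            have h4 : a ^ p = 1 := congrArg Subtype.val h3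
            rw [ha2', ← map_pow] at h4
            exact (QuotientGroup.eq_one_iff _).mp h4
        · intro x y h
          exact Subtype.ext (congrArg (fun z : {x : G // x ∈ N ∧ x ^ p ∈ N'} => (z : G)) h)

/-- one layer -/
theorem layer_sec {G : Type} [Group G] [Finite G] {N N' : Subgroup G} [N.Normal] [N'.Normal]
    (hle : N' ≤ N) (hNN : ⁅N, N⁆ ≤ N') {r : ℕ → ℕ} (hOK : LayerOK N N' r) {H : Subgroup G}
    {X : Type}
    [Group X] [Finite X] {q : H →* X} (hq : Function.Surjective q)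
    (hcyc : IsCyclic (Subgroup.center X))
    (hab : ∀ A : Subgroup X, A.Normal → (∀ a ∈ A, ∀ b ∈ A, a * b = b * a) →
      A ≤ Subgroup.center X)
    (hJ : ¬ (N.subgroupOf H).map q ≤ Subgroup.center X)
    (hJ' : (N'.subgroupOf H).map q ≤ Subgroup.center X) :
    ∃ (p : ℕ) (Y : Subgroup X), p.Prime ∧ Y.Normal ∧ Y ≠ ⊥ ∧
      Y ≤ ((derP p N).subgroupOf H).map q ∧ Rig (r p) X Y := by
  classical
  let Z := Subgroup.center X
  let J : Subgroup X := (N.subgroupOf H).map q
  have hJn : J.Normal := Subgroup.Normal.map inferInstance q hq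
  let F : Subgroup X := J ⊔ Z
  have hFn : F.Normal := Subgroup.sup_normal J Z
  have hJc : ∀ a b : H, (a : G) ∈ N → (b : G) ∈ N → a * b * a⁻¹ * b⁻¹ ∈ (⁅N, N⁆).subgroupOf H := by
    intro a b ha hb
    rw [Subgroup.mem_subgroupOf]
    have := Subgroup.commutator_mem_commutator ha hb
    rwa [commutatorElement_def] at this
  have hFJ : ∀ x ∈ F, ∀ y ∈ F, ∃ a b : H, (a : G) ∈ N ∧ (b : G) ∈ N ∧
      x * y * x⁻¹ * y⁻¹ = q (a * b * a⁻¹ * b⁻¹) := by
    intro x hx y hy
    obtain ⟨_, ⟨a, ha, rfl⟩, z, hz, rfl⟩ := Subgroup.mem_sup_of_normal_right.mp hx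
    obtain ⟨_, ⟨b, hb, rfl⟩, z', hz', rfl⟩ := Subgroup.mem_sup_of_normal_right.mp hy
    refine ⟨a, b, ha, hb, ?_⟩
    have e1 := Subgroup.mem_center_iff.mp hz
    have e2 := Subgroup.mem_center_iff.mp hz'
    rw [map_mul, map_mul, map_mul, map_inv, map_inv]
    have f1 : q a * z * (q b * z') = q a * q b * z * z' := by
      rw [mul_assoc, ← mul_assoc z, ← e1 (q b)]
      group
    rw [f1, mul_inv_rev, mul_inv_rev]
    have f2 : z * z' * (z⁻¹ * (q a)⁻¹) = z' * (q a)⁻¹ := by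
      rw [e2 z]
      group
    calc q a * q b * z * z' * (z⁻¹ * (q a)⁻¹) * (z'⁻¹ * (q b)⁻¹)
        = q a * q b * (z * z' * (z⁻¹ * (q a)⁻¹)) * (z'⁻¹ * (q b)⁻¹) := by group
      _ = q a * q b * (z' * (q a)⁻¹) * (z'⁻¹ * (q b)⁻¹) := by rw [f2]
      _ = q a * q b * ((q a)⁻¹ * z') * (z'⁻¹ * (q b)⁻¹) := by rw [e2]
      _ = _ := by group
  have hFc : ∀ x ∈ F, ∀ y ∈ F, x * y * x⁻¹ * y⁻¹ ∈ Z := by
    intro x hx y hy
    obtain ⟨a, b, ha, hb, h1⟩ := hFJ x hx y hy
    rw [h1]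
    exact hJ' ⟨_, hNN (hJc a b ha hb), rfl⟩
  have hFZ : F ≠ Z := fun h => hJ (by
    change J ≤ Z
    rw [← h]
    exact le_sup_left)
  obtain ⟨E, p, n, hEF, hE⟩ := exists_crit_le hab hcyc hFn le_sup_right hFZ hFc
  have hEn := hE.normal
  have hZpos : 0 < Nat.card Z := Nat.card_pos
  -- noncommuting elements
  obtain ⟨x, hx, y, hy, hxy⟩ : ∃ x ∈ E, ∃ y ∈ E, x * y ≠ y * x := by
    by_contra hcon
    push Not at hcon
    have h2 : E ≤ Z := hab E hEn hcon
    have h3 : E = Z := le_antisymm h2 hE.le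
    have h4 := hE.card
    rw [h3] at h4
    have h6 : 1 < p ^ (2 * n) := Nat.one_lt_pow (by have := hE.pos; omega) hE.prime.one_lt
    have h7 : Nat.card Z = p ^ (2 * n) * Nat.card Z := h4
    nlinarith
  have hxy1 : x * y * x⁻¹ * y⁻¹ ≠ 1 := fun h => hxy (by
    have := congrArg (fun t => t * y * x) h
    simpa [mul_assoc] using this)
  refine ⟨p, ⁅E, E⁆, hE.prime, inferInstance, ?_, ?_, crit_rig hE (hOK p n hE.prime hE.pos ?_ ?_)⟩
  · intro h
    apply hxy1
    have h1 := Subgroup.commutator_mem_commutator hx hy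
    rw [h, Subgroup.mem_bot, commutatorElement_def] at h1
    exact h1
  · -- commutators of elements of a `p`-subgroup
    obtain ⟨a, b, ha, hb, h1⟩ := hFJ x (hEF hx) y (hEF hy)
    let f : (N.subgroupOf H) →* X := q.comp (N.subgroupOf H).subtype
    obtain ⟨Q, m, hQ, hm, u, hu, v, hv, huv⟩ := exists_nonab f hE.prime (fun c d => by
      exact hJ' ⟨_, hNN (hJc _ _ c.2 d.2), rfl⟩) ⟨a, ha⟩ ⟨b, hb⟩
    let g : (N.subgroupOf H) →* G := H.subtype.comp (N.subgroupOf H).subtype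
    have hw : f (⟨a, ha⟩ * ⟨b, hb⟩ * (⟨a, ha⟩ : N.subgroupOf H)⁻¹ * (⟨b, hb⟩ : N.subgroupOf H)⁻¹)
        = x * y * x⁻¹ * y⁻¹ := h1.symm
    rw [hw] at huv
    have hwp := crit_comm hE hx hy
    have hw2 : (x * y * x⁻¹ * y⁻¹) ^ m ≠ 1 := by
      intro h2
      have h3 : orderOf (x * y * x⁻¹ * y⁻¹) = p := by
        have : Fact p.Prime := ⟨hE.prime⟩
        exact orderOf_eq_prime hwp hxy1
      have h4 := orderOf_dvd_of_pow_eq_one h2
      rw [h3] at h4
      exact hm h4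
    have hwE : f (u * v * u⁻¹ * v⁻¹) ∈ ((derP p N).subgroupOf H).map q := by
      refine ⟨((u * v * u⁻¹ * v⁻¹ : N.subgroupOf H) : H), ?_, rfl⟩
      have h2 : ⁅Q.map g, Q.map g⁆ ≤ derP p N := derP_le (by
        rintro _ ⟨c, -, rfl⟩
        exact c.2) (hQ.map g)
      apply h2
      have h3 := Subgroup.commutator_mem_commutator (H₁ := Q.map g) (H₂ := Q.map g)
        ⟨u, hu, rfl⟩ ⟨v, hv, rfl⟩
      rw [commutatorElement_def] at h3
      exact h3
    rw [huv] at hwE
    have hcycE : IsCyclic Z := hcyc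
    have hwZ : x * y * x⁻¹ * y⁻¹ ∈ Z := hE.comm x hx y hy
    have hEle : ∀ c ∈ E, ∀ d ∈ E, c * d * c⁻¹ * d⁻¹ ∈ Subgroup.zpowers
        ((x * y * x⁻¹ * y⁻¹) ^ m) := by
      intro c hc d hd
      have hcd : c * d * c⁻¹ * d⁻¹ ∈ Z := hE.comm c hc d hd
      have h2 := mem_zpowers_of_cyclic hcycE hE.prime
        (w := (⟨x * y * x⁻¹ * y⁻¹, hwZ⟩ : Z) ^ m) (y := ⟨c * d * c⁻¹ * d⁻¹, hcd⟩) (by
          rw [← pow_mul, mul_comm, pow_mul]
          have h3 : (⟨x * y * x⁻¹ * y⁻¹, hwZ⟩ : Z) ^ p = 1 := Subtype.ext hwp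
          rw [h3, one_pow]) (fun h3 => hw2 (congrArg Subtype.val h3))
        (Subtype.ext (crit_comm hE hc hd))
      obtain ⟨k, hk⟩ := Subgroup.mem_zpowers_iff.mp h2
      exact ⟨k, congrArg Subtype.val hk⟩
    rw [Subgroup.commutator_le]
    intro c hc d hd
    rw [commutatorElement_def]
    exact (Subgroup.zpowers_le.mpr hwE) (hEle c hc d hd)
  · -- the order of the layer
    refine rank_layer hle hNN hq hE.le hJ' hEF (p := p) (fun x hx => hE.pow x hx) ?_
    have h3 := (Z.subgroupOf E).card_mul_index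
    rw [Nat.card_congr (Subgroup.subgroupOfEquivOfLe hE.le).toEquiv, hE.card, mul_comm] at h3
    exact Nat.eq_of_mul_eq_mul_right hZpos h3
  · -- the acting prime
    obtain ⟨a⟩ := hE.exists_act
    obtain ⟨q', i, hq', hqp, hi, hin, hqi, hqF⟩ := exists_prime' (F := F) a hE.prime hE.pos (by
      intro g hg
      rw [MonoidHom.mem_ker]
      ext m
      obtain ⟨e, rfl⟩ := a.surj m
      have h1 : g * e * g⁻¹ ∈ E := hEn.conj_mem e e.2 g
      rw [a.act g e h1]
      have h2 : a.q (⟨g * e * g⁻¹, h1⟩ * e⁻¹) = 1 := by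
        rw [a.kerq]
        exact hFc g hg e (hEF e.2)
      rw [map_mul, map_inv] at h2
      rw [mul_inv_eq_one.mp h2]
      rfl)
    refine ⟨q', i, hq', hqp, ?_, hi, hin, hqi⟩
    refine hqF.trans ((Subgroup.index_dvd_of_le (le_sup_left : J ≤ F)).trans ?_)
    refine (Subgroup.index_map_dvd _ hq).trans ?_
    exact Subgroup.relIndex_dvd_index_of_normal N H

/-- the chain -/
theorem secG_chain {G : Type} [Group G] [Finite G] (l : ℕ) (N : ℕ → Subgroup G)
    (hn : ∀ k, (N k).Normal) (hl : N l = ⊥) (hle : ∀ k < l, N (k + 1) ≤ N k)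
    (hab : ∀ k < l, ⁅N k, N k⁆ ≤ N (k + 1)) (r : ℕ → ℕ → ℕ)
    (hOK : ∀ k < l, LayerOK (N k) (N (k + 1)) (r k)) :
    SecG (fun i : Fin l × {p : ℕ // p.Prime} => r i.1 i.2)
      (fun i : Fin l × {p : ℕ // p.Prime} => derP (i.2 : ℕ) (N i.1)) (N 0) := by
  classical
  intro H X _ _ q hq hcyc habX hne
  have h0 : ¬ ((N 0).subgroupOf H).map q ≤ Subgroup.center X := by
    intro h
    obtain ⟨a, ha, b, hb, hne⟩ := hne
    exact hne (Subgroup.mem_center_iff.mp (h hb) a)
  have hl' : ((N l).subgroupOf H).map q ≤ Subgroup.center X := by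
    rintro _ ⟨x, hx, rfl⟩
    have hx' : (x : G) ∈ N l := hx
    rw [hl, Subgroup.mem_bot] at hx'
    have : x = 1 := Subtype.ext hx'
    rw [this, map_one]
    exact one_mem _
  obtain ⟨k, hk, h1, h2⟩ : ∃ k < l, ¬ ((N k).subgroupOf H).map q ≤ Subgroup.center X ∧
      ((N (k + 1)).subgroupOf H).map q ≤ Subgroup.center X := by
    by_contra hcon
    push Not at hcon
    have key : ∀ k ≤ l, ¬ ((N k).subgroupOf H).map q ≤ Subgroup.center X := by
      intro k
      induction k with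
      | zero => exact fun _ => h0
      | succ k ih => exact fun hk => hcon k (by omega) (ih (by omega))
    exact key l le_rfl hl'
  have := hn k
  have := hn (k + 1)
  obtain ⟨p, Y, hp, hY⟩ := layer_sec (hle k hk) (hab k hk) (hOK k hk) hq hcyc habX h1 h2
  exact ⟨⟨⟨k, hk⟩, ⟨p, hp⟩⟩, Y, hY⟩

end Pool.Agent.N28.DL
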