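import Mathlib
import Pool.Agent.N28.DL.Chain
import Pool.Agent.N28.DL.Bridge
import Pool.Agent.R389.SmallMain

/-!
# Deligne's conjecture for solvable groups with few new zeros
-/

set_option autoImplicit false
set_option linter.unusedSectionVars false

namespace Pool.Agent.N28.DL

open Pool.Agent.H302R2 Pool.Agent.H302R3 Pool.Agent.H541R3.ART Pool.Agent.W446.AS Pool.Agent.R389
  Filter Topology

variable {G : Type} [Group G] [Finite G]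

/-- the chain of length zero -/
lemma sso_top : SSo (⊤ : Subgroup G) :=
  ⟨0, fun _ => ⊤, rfl, rfl, fun _ => inferInstance, fun i hi => absurd hi (by omega)⟩

lemma HA.exists_deg {θ : G → ℂ} (h : HA θ) : ∃ a : ℕ, θ 1 = a := by
  have hh : HH θ := { conj := h.conj, nat := fun U ψ _ => h.nat U ψ }
  exact hh.deg

lemma inv_one_eq {θ : G → ℂ} (h : HA θ) (K : Subgroup G) :
    inv K θ 1 = pr θ (ind K (fun _ => (1 : ℂ))) := by
  classical
  have : Fintype K := Fintype.ofFinite K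
  rw [frob' K _ h.conj, pr_eq, inv_eq]
  simp

/-- characters of solvable groups with few new zeros -/
theorem chain_chars (hG : Group.IsSolvable G) (l : ℕ) (N : ℕ → Subgroup G)
    (hn : ∀ k, (N k).Normal) (h0 : N 0 = ⊤) (hl : N l = ⊥) (hle : ∀ k < l, N (k + 1) ≤ N k)
    (hab : ∀ k < l, ⁅N k, N k⁆ ≤ N (k + 1)) (r : ℕ → ℕ → ℕ)
    (hOK : ∀ k < l, LayerOK (N k) (N (k + 1)) (r k)) {θ : G → ℂ} (hA : HA θ)
    (hr : ∀ k < l, ∀ p : ℕ, p.Prime → ∃ a b : ℤ, θ 1 = a ∧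
      pr θ (ind (derP p (N k)) (fun _ => (1 : ℂ))) = b ∧ a ≤ b + r k p) :
    ∀ χ ∈ Irr G, R389.Mono χ ∨ χ ∈ GoodA θ := by
  classical
  refine gtG (fun i : Fin l × {p : ℕ // p.Prime} => r i.1 i.2) (Nat.card G) G rfl (N 0)
    (fun i : Fin l × {p : ℕ // p.Prime} => derP (i.2 : ℕ) (N i.1))
    (by rw [h0]; exact sso_top) (secG_chain l N hn hl hle hab r hOK) θ hA ?_
  rintro ⟨⟨k, hk⟩, ⟨p, hp⟩⟩
  have hnk := hn k
  obtain ⟨s, hs⟩ := HA.exists_deg hA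
  have hDn : (derP p (N k)).Normal := derP_normal p (N k)
  have hA1 : HA (θ - inv (derP p (N k)) θ) := HA.cut_solvable hG hA hs _
  obtain ⟨s', hs'⟩ := HA.exists_deg hA1
  refine ⟨inv (derP p (N k)) θ, θ - inv (derP p (N k)) θ, by abel, hA1, fun g x hx =>
    inv_mul_mem _ θ g hx, s', ?_, hs'⟩
  obtain ⟨a, b, h1, h2, h3⟩ := hr k hk p hp
  rw [← inv_one_eq hA] at h2
  rw [Pi.sub_apply, h1, h2] at hs'
  have h4 : a - b = s' := by exact_mod_cast hs'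
  have h5 : (s' : ℤ) ≤ r k p := by omega
  exact_mod_cast h5

variable {E : Type} [Field E]
  {L : (E →+* ℂ) → (G → ℂ) → ℂ → ℂ} {P : (E →+* ℂ) → (G → ℂ) → ℂ} {c : ℂ}

/-- **Deligne's conjecture for solvable groups with few new zeros.** -/
theorem main_chain {ζ : E} (hζ : IsPrimitiveRoot ζ (Monoid.exponent G))
    (hL : ∀ τ, ∀ χ ∈ Irr G, MeromorphicAt (L τ χ) c ∧ meromorphicOrderAt (L τ χ) c ≠ ⊤)
    (hP : ∀ τ, ∀ χ ∈ Irr G, P τ χ ≠ 0)
    (hmon : ∀ (U : Subgroup G) (ψ : U →* Eˣ),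
      Deligne L P c (ind U (fun u => ((ψ u : Eˣ) : E)))) (τ₀ : E →+* ℂ)
    (hG : Group.IsSolvable G) (l : ℕ) (N : ℕ → Subgroup G)
    (hn : ∀ k, (N k).Normal) (h0 : N 0 = ⊤) (hl : N l = ⊥) (hle : ∀ k < l, N (k + 1) ≤ N k)
    (hab : ∀ k < l, ⁅N k, N k⁆ ≤ N (k + 1)) (r : ℕ → ℕ → ℕ)
    (hOK : ∀ k < l, LayerOK (N k) (N (k + 1)) (r k))
    {deg : (G → ℂ) → ℕ} (hdeg : ∀ χ ∈ Irr G, χ 1 = deg χ)
    {a : ℤ} (ha : meromorphicOrderAt (fun s => ∏ᶠ χ ∈ Irr G, L τ₀ χ s ^ deg χ) c = a)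
    (b : ℕ → ℕ → ℤ) (hb : ∀ k < l, ∀ p : ℕ, p.Prime → ∃ m : (G → ℂ) → ℕ,
      IsDecomp (ind (derP p (N k)) (fun _ => (1 : ℂ))) m ∧
      meromorphicOrderAt (fun s => ∏ᶠ χ ∈ Irr G, L τ₀ χ s ^ m χ) c = b k p)
    (hr : ∀ k < l, ∀ p : ℕ, p.Prime → a ≤ b k p + r k p)
    {V : Type} [AddCommGroup V] [Module E V] [FiniteDimensional E V] (ρ : Representation E G V) :
    Deligne L P c ρ.character := by
  classical
  refine bridge hζ hL hP hmon τ₀ (fun χ hχ => mem_sup_of ?_) ρ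
  refine chain_chars hG l N hn h0 hl hle hab r hOK (ha_ords hζ hL hmon τ₀) ?_ χ hχ
  intro k hk p hp
  obtain ⟨m, hm, hmk⟩ := hb k hk p hp
  obtain ⟨z, hz1, hz2⟩ := order_eq_pr hL τ₀ hm
  refine ⟨a, b k p, ?_, ?_, hr k hk p hp⟩
  · have htop := top_order (hL τ₀) deg
    rw [ha] at htop
    have h1 : a = ∑ χ ∈ irrF G, (deg χ : ℤ) * ords (L τ₀) c χ := by exact_mod_cast htop
    rw [theta_one_eq (c := c) (l := L τ₀) hdeg, ← h1]
  · rw [hz1] at hmk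
    have h1 : z = b k p := by exact_mod_cast hmk
    rw [hz2, h1]

end Pool.Agent.N28.DL
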