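import Mathlib
import Pool.Agent.N28.DL.Gen

/-!
# Twists and quotients
-/

set_option autoImplicit false
set_option linter.unusedSectionVars false

namespace Pool.Agent.N28.DL

open Pool.Agent.H302R2 Pool.Agent.H302R3 Pool.Agent.H541R3.ART Pool.Agent.W446.AS Pool.Agent.R389
  Pool.Agent.H302R5 Pool.Agent.H302R6

variable {G : Type} [Group G] [Finite G] {θ : G → ℂ}

/-- induced characters and twists -/
lemma ind_tw (U : Subgroup G) (ψ : U →* ℂˣ) (lam : G →* ℂˣ) :
    (fun g => ind U (fun h => ((ψ h : ℂˣ) : ℂ)) g * ((lam g : ℂˣ) : ℂ))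
      = ind U (fun h => (((ψ * lam.comp U.subtype) h : ℂˣ) : ℂ)) := by
  funext g
  rw [← ind_mul U _ (F := fun g => ((lam g : ℂˣ) : ℂ)) (lin_conj lam) g]
  congr 1

/-- multiplicities and twists -/
lemma pr_tw (lam : G →* ℂˣ) (f η : G → ℂ) :
    pr (fun g => f g * ((lam g : ℂˣ) : ℂ)) (fun g => η g * ((lam g : ℂˣ) : ℂ)) = pr f η := by
  classical
  have : Fintype G := Fintype.ofFinite G
  rw [pr_eq, pr_eq]
  congr 1
  refine Finset.sum_congr rfl fun g _ => ?_
  rw [map_inv]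
  have h : ((lam g : ℂˣ) : ℂ) * (((lam g)⁻¹ : ℂˣ) : ℂ) = 1 := by
    rw [← Units.val_mul, mul_inv_cancel, Units.val_one]
  linear_combination (f g * η g⁻¹) * h

/-- twists of monomial characters -/
lemma mono_tw (lam : G →* ℂˣ) {χ : G → ℂ} (h : R389.Mono χ) :
    R389.Mono (fun g => χ g * ((lam g : ℂˣ) : ℂ)) := by
  obtain ⟨U, ψ, rfl⟩ := h
  exact ⟨U, _, ind_tw U ψ lam⟩

/-- twists of good characters -/
lemma goodA_tw (lam : G →* ℂˣ) {f : G → ℂ} (h : f ∈ GoodA θ) :
    (fun g => f g * ((lam g : ℂˣ) : ℂ)) ∈ GoodA (fun g => θ g * ((lam g : ℂˣ) : ℂ)) := by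
  have h1 : GoodA θ ≤ (GoodA (fun g => θ g * ((lam g : ℂˣ) : ℂ))).comap (twHom lam) := by
    rw [GoodA, AddSubgroup.closure_le]
    rintro f ⟨U, ψ, rfl, h2⟩
    rw [SetLike.mem_coe, AddSubgroup.mem_comap]
    refine AddSubgroup.subset_closure ⟨U, _, ind_tw U ψ lam, ?_⟩
    change pr _ (fun g => ind U (fun h => ((ψ h : ℂˣ) : ℂ)) g * ((lam g : ℂˣ) : ℂ)) = 0
    rw [pr_tw, h2]
  exact h1 h

/-- it suffices to consider a twist -/
lemma of_tw (lam : G →* ℂˣ) (h : ∀ χ ∈ Irr G, R389.Mono χ ∨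
      χ ∈ GoodA (fun g => θ g * (((lam g)⁻¹ : ℂˣ) : ℂ))) :
    ∀ χ ∈ Irr G, R389.Mono χ ∨ χ ∈ GoodA θ := by
  intro χ hχ
  have e1 : ∀ f : G → ℂ, (fun g => (fun g => f g * ((lam⁻¹ g : ℂˣ) : ℂ)) g * ((lam g : ℂˣ) : ℂ))
      = f := by
    intro f
    funext g
    change f g * ((lam⁻¹ g : ℂˣ) : ℂ) * ((lam g : ℂˣ) : ℂ) = f g
    rw [mul_assoc, ← Units.val_mul, MonoidHom.inv_apply, inv_mul_cancel, Units.val_one, mul_one]
  rcases h _ (irr_twist hχ lam⁻¹) with h1 | h1
  · left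
    have := mono_tw lam h1
    rwa [e1] at this
  · right
    have := goodA_tw lam h1
    rw [e1] at this
    have e2 : (fun g => (fun g => θ g * (((lam g)⁻¹ : ℂˣ) : ℂ)) g * ((lam g : ℂˣ) : ℂ)) = θ :=
      e1 θ
    rwa [e2] at this

/-- pulling back good characters -/
lemma goodA_comp {X : Type} [Group X] [Finite X] [Fintype G] {π : G →* X}
    (hπ : Function.Surjective π) {f : X → ℂ} (h : f ∈ GoodA (push π θ)) :
    (fun g => f (π g)) ∈ GoodA θ := by
  let m : (X → ℂ) →+ (G → ℂ) := AddMonoidHom.mk' (fun u g => u (π g)) (fun a b => rfl)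
  have h1 : GoodA (push π θ) ≤ (GoodA θ).comap m := by
    rw [GoodA, AddSubgroup.closure_le]
    rintro f ⟨V, ψ, rfl, h2⟩
    rw [SetLike.mem_coe, AddSubgroup.mem_comap]
    change (fun g => ind V _ (π g)) ∈ GoodA θ
    refine AddSubgroup.subset_closure ⟨V.comap π, ψ.comp
      { toFun := fun h : V.comap π => ⟨π h, h.2⟩
        map_one' := by apply Subtype.ext; simp
        map_mul' := by intro a b; apply Subtype.ext; simp }, ind_comap hπ V _, ?_⟩
    rw [← pr_push hπ]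
    exact h2
  exact h1 h

/-- everything is rigid in degree zero -/
lemma rig_zero (X : Type) [Group X] [Finite X] (Y : Subgroup X) : Rig 0 X Y := by
  intro η hη s' hs' h1 x y _
  have h0 : ∀ g, η g = 0 := by
    intro g
    have hh : HH η := { conj := hη.conj, nat := fun U ψ _ => hη.nat U ψ }
    have := hh.norm_le g
    rw [h1, Nat.le_zero.mp hs', Nat.cast_zero, Complex.zero_re] at this
    exact norm_le_zero_iff.mp this
  rw [h0, h0]

lemma ha_zero : HA (0 : G → ℂ) where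
  conj g x := rfl
  nat U ψ := ⟨0, by rw [pr_comm]; simp [pr]⟩

/-- characters which are nontrivial on the kernel -/
lemma good_of_const (hA : HA θ) (K : Subgroup G) (hK : K.Normal)
    (hc : ∀ g, ∀ k ∈ K, θ (g * k) = θ g) {χ : G → ℂ} (hχ : χ ∈ Irr G)
    (h : ∃ k ∈ K, χ k ≠ χ 1) : χ ∈ GoodA θ := by
  exact rig_good (π := MonoidHom.id G) Function.surjective_id hχ hK h (K := K)
    (by rw [Subgroup.map_id]) (rig_zero G K) hA (θ₀ := θ) (θ₁ := 0) (by simp) ha_zero hc
    (s' := 0) le_rfl (by simp)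

/-- characters which are trivial on a normal subgroup -/
lemma descend_triv (N : Subgroup G) [N.Normal] {χ : G → ℂ} (hχ : χ ∈ Irr G)
    (h : ∀ k ∈ N, χ k = χ 1) :
    ∃ ψ ∈ Irr (G ⧸ N), ∀ g, χ g = ψ (QuotientGroup.mk' N g) := by
  classical
  have : Fintype N := Fintype.ofFinite N
  obtain ⟨n, ρ, hρ, rfl⟩ := exists_rep hχ
  refine descend_irr (QuotientGroup.mk'_surjective N) hρ fun g hg => ?_
  rw [QuotientGroup.ker_mk'] at hg
  rcases hρ.normal_dich N with h6 | h6
  · exact h6 g hg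
  · exfalso
    have h7 := h6 1
    have h8 : ∀ x : N, ρ.character (1 * x) = ρ.character 1 := by
      intro x
      rw [one_mul]
      exact h x x.2
    rw [Finset.sum_congr rfl (fun x _ => h8 x), Finset.sum_const, nsmul_eq_mul,
      Finset.card_univ] at h7
    have h9 : (Fintype.card N : ℂ) ≠ 0 := by
      rw [← Nat.card_eq_fintype_card]
      exact card_ne
    rcases mul_eq_zero.mp h7 with h10 | h10
    · exact h9 h10
    · obtain ⟨d, hd, h11⟩ := irr_deg_pos hχ
      rw [h10] at h11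
      norm_cast at h11
      omega

/-- it suffices to consider the quotient by the kernel -/
lemma of_quot [Fintype G] (hA : HA θ) (N : Subgroup G) [N.Normal]
    (hc : ∀ g, ∀ k ∈ N, θ (g * k) = θ g)
    (h : ∀ ψ ∈ Irr (G ⧸ N), R389.Mono ψ ∨ ψ ∈ GoodA (push (QuotientGroup.mk' N) θ)) :
    ∀ χ ∈ Irr G, R389.Mono χ ∨ χ ∈ GoodA θ := by
  intro χ hχ
  by_cases h1 : ∃ k ∈ N, χ k ≠ χ 1
  · exact Or.inr (good_of_const hA N inferInstance hc hχ h1)
  · push Not at h1
    obtain ⟨ψ, hψ, h2⟩ := descend_triv N hχ h1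
    have h3 : χ = fun g => ψ (QuotientGroup.mk' N g) := funext h2
    rcases h ψ hψ with h4 | h4
    · left
      rw [h3]
      exact h4.comp (QuotientGroup.mk'_surjective N)
    · right
      rw [h3]
      exact goodA_comp (QuotientGroup.mk'_surjective N) h4

end Pool.Agent.N28.DL
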