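import Mathlib
import Pool.Agent.N28.DL.Tw
import Pool.Agent.N28.DL.MainChain
import Pool.Agent.TH820.OddFinal
import Pool.Agent.R389.RatOne
import Pool.Agent.R389.RatMain2

/-!
# Deligne's conjecture for rational twists by nonsolvable groups
-/

set_option autoImplicit false
set_option linter.unusedSectionVars false

namespace Pool.Agent.N28.DL

open Pool.Agent.H302R2 Pool.Agent.H302R3 Pool.Agent.H541R3.ART Pool.Agent.W446.AS Pool.Agent.R389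
  Pool.Agent.H302R5 Pool.Agent.H302R6 Filter Topology

variable {G : Type} [Group G] [Finite G] {θ : G → ℂ}

/-- it suffices to consider the quotient by the kernel -/
lemma of_surj {Q : Type} [Group Q] [Finite Q] [Fintype G] (hA : HA θ) {π : G →* Q}
    (hπ : Function.Surjective π) (hc : ∀ g, ∀ k ∈ π.ker, θ (g * k) = θ g)
    (h : ∀ ψ ∈ Irr Q, R389.Mono ψ ∨ ψ ∈ GoodA (push π θ)) :
    ∀ χ ∈ Irr G, R389.Mono χ ∨ χ ∈ GoodA θ := by
  classical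
  intro χ hχ
  by_cases h1 : ∃ k ∈ π.ker, χ k ≠ χ 1
  · exact Or.inr (good_of_const hA π.ker inferInstance hc hχ h1)
  · push Not at h1
    have hfk : Fintype π.ker := Fintype.ofFinite _
    obtain ⟨ψ, hψ, h2⟩ : ∃ ψ ∈ Irr Q, ∀ g, χ g = ψ (π g) := by
      obtain ⟨n, ρ, hρ, rfl⟩ := exists_rep hχ
      refine descend_irr hπ hρ fun g hg => ?_
      rcases hρ.normal_dich π.ker with h6 | h6
      · exact h6 g hg
      · exfalso
        have h7 := h6 1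
        have h8 : ∀ x : π.ker, ρ.character (1 * x) = ρ.character 1 := by
          intro x
          rw [one_mul]
          exact h1 x x.2
        rw [Finset.sum_congr rfl (fun x _ => h8 x), Finset.sum_const, nsmul_eq_mul,
          Finset.card_univ] at h7
        have h9 : (Fintype.card π.ker : ℂ) ≠ 0 := by
          rw [← Nat.card_eq_fintype_card]
          exact card_ne
        rcases mul_eq_zero.mp h7 with h10 | h10
        · exact h9 h10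
        · obtain ⟨d, hd, h11⟩ := irr_deg_pos hχ
          rw [h10] at h11
          norm_cast at h11
          omega
    have h3 : χ = fun g => ψ (π g) := funext h2
    rcases h ψ hψ with h4 | h4
    · left
      rw [h3]
      exact h4.comp hπ
    · right
      rw [h3]
      exact goodA_comp hπ h4

/-- **Characters of groups with a rigid kernel.** -/
theorem quot_chars {Q : Type} [Group Q] [Finite Q] (hQ : Group.IsSolvable Q) {π : G →* Q}
    (hπ : Function.Surjective π) (hA : HA θ) {r : ℕ} (hr : θ 1 = r)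
    (hR : Pool.Agent.TH820.BuiltC r (Pool.Agent.TH820.FacO r) π.ker) (l : ℕ)
    (N : ℕ → Subgroup Q) (hn : ∀ k, (N k).Normal) (h0 : N 0 = ⊤) (hl : N l = ⊥)
    (hle : ∀ k < l, N (k + 1) ≤ N k) (hab : ∀ k < l, ⁅N k, N k⁆ ≤ N (k + 1)) (s : ℕ → ℕ → ℕ)
    (hOK : ∀ k < l, LayerOK (N k) (N (k + 1)) (s k))
    (hs : ∀ k < l, ∀ p : ℕ, p.Prime → ∃ b : ℤ,
      pr θ (ind ((derP p (N k)).comap π) (fun _ => (1 : ℂ))) = b ∧ (r : ℤ) ≤ b + s k p) :
    ∀ χ ∈ Irr G, R389.Mono χ ∨ χ ∈ GoodA θ := by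
  classical
  have : Fintype G := Fintype.ofFinite G
  have hfk : Fintype π.ker := Fintype.ofFinite _
  have hθ := heil_of hA
  have hR' : Pool.Agent.TH820.BuiltC r (Pool.Agent.H302R10.Rigid r) π.ker :=
    hR.mono (fun S _ _ hS => hS.rigid)
  have hc := Pool.Agent.TH820.builtC_const hR' hθ le_rfl hr
  have hc' : ∀ g, ∀ k ∈ π.ker, θ (g * k) = θ g := by
    intro g k hk
    have h1 := hc (g * k * g⁻¹) ((inferInstance : π.ker.Normal).conj_mem k hk g) g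
    rwa [inv_mul_cancel_right] at h1
  refine of_surj hA hπ hc' ?_
  have hA' : HA (push π θ) := ha_of (push_isHeilbronn hπ hθ)
  have h1 : push π θ 1 = r := by
    rw [← map_one π, push_apply, Finset.sum_congr rfl (fun (n : π.ker) _ => hc' 1 n n.2),
      Finset.sum_const, Finset.card_univ, nsmul_eq_mul, ← Nat.card_eq_fintype_card, ← mul_assoc,
      inv_mul_cancel₀ card_ne, one_mul, hr]
  refine chain_chars hQ l N hn h0 hl hle hab s hOK hA' ?_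
  intro k hk p hp
  obtain ⟨b, hb, hrb⟩ := hs k hk p hp
  refine ⟨r, b, by rw [h1]; simp, ?_, hrb⟩
  rw [pr_push hπ, ← hb]
  congr 1
  exact ind_comap hπ _ _

variable {E : Type} [Field E] {ℓ : (G → ℂ) → ℂ → ℂ} {P : (E →+* ℂ) → (G → ℂ) → ℂ} {c : ℂ}

/-- the conclusion for rational representations -/
theorem rat_form [NumberField E] {ζ : E} (hζ : IsPrimitiveRoot ζ (Monoid.exponent G))
    (hL : ∀ χ ∈ Irr G, MeromorphicAt (ℓ χ) c ∧ meromorphicOrderAt (ℓ χ) c ≠ ⊤)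
    (hP : ∀ τ, ∀ χ ∈ Irr G, P τ χ ≠ 0)
    (hmon : ∀ (U : Subgroup G) (ψ : U →* Eˣ),
      Deligne (fun _ => ℓ) P c (ind U (fun u => ((ψ u : Eˣ) : E))))
    (hall : ∀ χ ∈ Irr G, χ ∈ MonPA G ⊔ (GoodA (theta (ords ℓ c) : G → ℂ)).toAddSubmonoid)
    {V : Type} [AddCommGroup V] [Module ℚ V] [FiniteDimensional ℚ V] (ρ : Representation ℚ G V)
    {m : (G → ℂ) → ℕ} (hm : IsDecomp (fun g => ((ρ.character g : ℚ) : ℂ)) m)
    {Ω : ℂ} {u : E} (hΩ : ∀ τ : E →+* ℂ, ∏ᶠ χ ∈ Irr G, P τ χ ^ m χ = τ u * Ω) :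
    ∃ q : ℚ, Tendsto (fun s => ∏ᶠ χ ∈ Irr G, ℓ χ s ^ m χ) (𝓝[≠] c) (𝓝 (q * Ω)) := by
  classical
  obtain ⟨τ₀⟩ : Nonempty (E →+* ℂ) := inferInstance
  have hF : ∀ τ : E →+* ℂ, (fun g => τ (algebraMap ℚ E (ρ.character g)))
      = fun g => ((ρ.character g : ℚ) : ℂ) := by
    intro τ
    funext g
    rw [eq_ratCast, map_ratCast]
  have hd : Deligne (fun _ => ℓ) P c (fun g => algebraMap ℚ E (ρ.character g)) := by
    refine bridge' hζ (fun _ => hL) hP hmon τ₀ hall ?_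
    rw [hF]
    exact cch_mem ρ
  obtain ⟨e, he⟩ := hd
  have h1 : ∀ τ : E →+* ℂ, Tendsto (fun s => ∏ᶠ χ ∈ Irr G, ℓ χ s ^ m χ) (𝓝[≠] c)
      (𝓝 (τ (e * u) * Ω)) := by
    intro τ
    have h2 := he τ m (by rw [hF]; exact hm)
    rw [hΩ, ← mul_assoc, ← map_mul] at h2
    exact h2
  have hΩ0 : Ω ≠ 0 := by
    intro h0
    have h2 := hΩ τ₀
    rw [h0, mul_zero, finprod_irr (fun χ => P τ₀ χ ^ m χ)] at h2
    exact Finset.prod_ne_zero_iff.mpr (fun χ hχ => pow_ne_zero _ (hP τ₀ χ (mem_irrF.mp hχ))) h2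
  obtain ⟨q, hq⟩ := rat_of_embeddings (e * u) (τ₀ (e * u)) (fun τ => by
    have h2 := tendsto_nhds_unique (h1 τ) (h1 τ₀)
    exact mul_right_cancel₀ hΩ0 h2)
  refine ⟨q, ?_⟩
  have h2 := h1 τ₀
  rw [← hq, eq_ratCast, map_ratCast] at h2
  exact h2

/-- **Rational twists by groups with a rigid kernel.** -/
theorem main_quot [NumberField E] {ζ : E} (hζ : IsPrimitiveRoot ζ (Monoid.exponent G))
    (hL : ∀ χ ∈ Irr G, MeromorphicAt (ℓ χ) c ∧ meromorphicOrderAt (ℓ χ) c ≠ ⊤)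
    (hP : ∀ τ, ∀ χ ∈ Irr G, P τ χ ≠ 0)
    (hmon : ∀ (U : Subgroup G) (ψ : U →* Eˣ),
      Deligne (fun _ => ℓ) P c (ind U (fun u => ((ψ u : Eˣ) : E))))
    {deg : (G → ℂ) → ℕ} (hdeg : ∀ χ ∈ Irr G, χ 1 = deg χ) {r : ℕ}
    (ha : meromorphicOrderAt (fun s => ∏ᶠ χ ∈ Irr G, ℓ χ s ^ deg χ) c = (r : ℤ))
    {Q : Type} [Group Q] [Finite Q] (hQ : Group.IsSolvable Q) {π : G →* Q}
    (hπ : Function.Surjective π)
    (hR : Pool.Agent.TH820.BuiltC r (Pool.Agent.TH820.FacO r) π.ker) (l : ℕ)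
    (N : ℕ → Subgroup Q) (hn : ∀ k, (N k).Normal) (h0 : N 0 = ⊤) (hl : N l = ⊥)
    (hle : ∀ k < l, N (k + 1) ≤ N k) (hab : ∀ k < l, ⁅N k, N k⁆ ≤ N (k + 1)) (s : ℕ → ℕ → ℕ)
    (hOK : ∀ k < l, LayerOK (N k) (N (k + 1)) (s k))
    (b : ℕ → ℕ → ℤ) (hb : ∀ k < l, ∀ p : ℕ, p.Prime → ∃ m : (G → ℂ) → ℕ,
      IsDecomp (ind ((derP p (N k)).comap π) (fun _ => (1 : ℂ))) m ∧
      meromorphicOrderAt (fun s => ∏ᶠ χ ∈ Irr G, ℓ χ s ^ m χ) c = b k p)
    (hs : ∀ k < l, ∀ p : ℕ, p.Prime → (r : ℤ) ≤ b k p + s k p)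
    {V : Type} [AddCommGroup V] [Module ℚ V] [FiniteDimensional ℚ V] (ρ : Representation ℚ G V)
    {m : (G → ℂ) → ℕ} (hm : IsDecomp (fun g => ((ρ.character g : ℚ) : ℂ)) m)
    {Ω : ℂ} {u : E} (hΩ : ∀ τ : E →+* ℂ, ∏ᶠ χ ∈ Irr G, P τ χ ^ m χ = τ u * Ω) :
    ∃ q : ℚ, Tendsto (fun s => ∏ᶠ χ ∈ Irr G, ℓ χ s ^ m χ) (𝓝[≠] c) (𝓝 (q * Ω)) := by
  classical
  obtain ⟨τ₀⟩ : Nonempty (E →+* ℂ) := inferInstance
  refine rat_form hζ hL hP hmon (fun χ hχ => mem_sup_of ?_) ρ hm hΩ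
  have hA : HA (theta (ords ℓ c) : G → ℂ) := ha_ords (L := fun _ => ℓ) hζ (fun _ => hL) hmon τ₀
  have h1 : (theta (ords ℓ c) : G → ℂ) 1 = r := by
    have htop := top_order hL deg
    rw [ha] at htop
    have h1 : (r : ℤ) = ∑ χ ∈ irrF G, (deg χ : ℤ) * ords ℓ c χ := by exact_mod_cast htop
    rw [theta_one_eq (c := c) (l := ℓ) hdeg, ← h1]
    simp
  refine quot_chars hQ hπ hA h1 hR l N hn h0 hl hle hab s hOK ?_ χ hχ
  intro k hk p hp
  obtain ⟨m, hm, hmk⟩ := hb k hk p hp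
  obtain ⟨z, hz1, hz2⟩ := order_eq_pr (L := fun _ : E →+* ℂ => ℓ) (fun _ => hL) τ₀ hm
  refine ⟨b k p, ?_, hs k hk p hp⟩
  rw [hz1] at hmk
  have h1 : z = b k p := by exact_mod_cast hmk
  rw [hz2, h1]

end Pool.Agent.N28.DL
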